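import Pool.Agent.Helper62.TM.NBW
import Pool.Agent.Helper26.TM.NBT
import Pool.Agent.Helper21.TM.M7D

/-!
Taylor model machine (MP_c75db0, star frame), row (C) of M7: the test of the runs of a rotation of
length 2 of a cell, their data at a point, and THE INSTANCE OF THE ITEM TESTS for all kinds, for any
machine.
-/

set_option autoImplicit false
noncomputable section
namespace Pool.Agent.Helper91.TMK.NBX

open Matrix
open Pool.Agent.Helper90.KMO (UU UU_pos UUc_ne cz zv zv_p)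
open Pool.Agent.Helper86.C75 (Z)
open Pool.Agent.Helper86.CX (Cx andB)
open Pool.Agent.Helper86.CT (N3 Alg Mo KM mk cst addM subM mulM conjM invM invOK nx)
open Pool.Agent.Helper17.K9 (V9)
open Pool.Agent.Helper62.TVM (cstC zeM negM hfM re2M V3m cstV addV subV negV smV mulV oV)
open Pool.Agent.Helper62.LBM (onM powM erM)
open Pool.Agent.Helper62.NBC (Br)
open Pool.Agent.Helper62.NBM (SN ND dbM muN thN hdN gN utM wtM b3M)
open Pool.Agent.Helper62.NBQ
open Pool.Agent.Helper62.NBP (NP cjN nuM bM bdM SR SR.of_Br)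
open Pool.Agent.Helper62.NBT (npA muA thA dA bE_of bdE_of)
open Pool.Agent.Helper62.NBD (BP GB)
open Pool.Agent.Helper62.NBV
open Pool.Agent.Helper62.NBW (nth nth_t pcB ggM adK zB mu_norm nu_norm mu_ne)
open Pool.Agent.Helper62.NBX (P_67 Kp_7 SN_7)
open Pool.Agent.Helper26.XH (FH hL hR hH)
open Pool.Agent.Helper26.IT (upK condB Pd_k)
open Pool.Agent.Helper26.SF (Sf sfOK sfM sfR sf_pos)
open Pool.Agent.Helper51.FR (andB_t' RTK)
open Pool.Agent.Helper82.TST (Fr frA frB frK frN frR frS)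
open Pool.Agent.Helper82.FRD (frOK)
open Pool.Agent.Helper91.TMK.LBM (TOK_on TOK_pow TOK_er)
open Pool.Agent.Helper91.TMK.NBM (psB rhM cM spM spOK TSN TSN_sp ps_pos)
open Pool.Agent.Helper91.TMK.NBP (TSG TNP TV_b TV_bd)
open Pool.Agent.Helper91.TMK.NBT (TNP_a TV_ot TV_ot')
open Pool.Agent.Helper91.TMK.NBW
open Pool.Agent.Helper91.TMK.XH (HOK)
open Pool.Agent.Helper91.TMK.FR (cst_nat)
open Pool.Agent.Helper91.TMK.IT (nA)
open Pool.Agent.Helper91.TMK.TST
open Pool.Agent.Helper91.TMK.SW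
open Pool.Agent.Helper91.TMK.ITF (GT kU TOK_sf')
open Pool.Agent.Helper6.MONO (V3 Kp xA fB Kp_mono)
open Pool.Agent.Helper6.MONO.W2 (Mt J1 NT NZ IN rfJ rfd nX nMd Sy sDm phi Prt RPar sat sati Pd cs
  sc sc_cs brJ hr ep nW cW vC wC SPC chS chC chD chR chO chQ chS_zero chC_zero chD_zero chS_succ
  chC_succ chD_succ chR_pos chS_ge chS_pos chS_mono chR_anti chR_mul chR_sq chR_sq_ge tt ptF_k)
open Pool.Agent.Helper21.SW (Mu cK sc_mod sc_div2)
open Pool.Agent.Helper21.NB (rB rBd SPR nb4 hdC thC gC)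

variable {α κ γ : Type}

/-! ### kernel side -/

/-- the trace -/
def trM (A : Alg α) (M : V9 α) : Mo α := addM A (addM A M.a M.e) M.i
def gt0 (A : Alg α) (d0 : Mo α) (v : V3m α) : Mo α := trM A (bM A (oV A v v) d0 (conjM A d0))
def gd0 (A : Alg α) (d0 : Mo α) (v vd : V3m α) : Mo α :=
  trM A (bdM A (addV A (oV A vd v) (oV A v vd)) d0 (conjM A d0))
/-- the trace of the block and its derivative: `E` model of `e` -/
def gtM (A : Alg α) (E : Mo α) (F : FH α) : Mo α := gt0 A (erM A E false (nat_lit 2)) F.v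
def gdM (A : Alg α) (E : Mo α) (F : FH α) : Mo α := gd0 A (erM A E false (nat_lit 2)) F.v F.vd
/-- the spectral numbers -/
def gsM (A : Alg α) (E : Mo α) (F : FH α) (d : ND α) : SN α := spM A (gtM A E F) (gdM A E F) d

def cN (A : Alg α) (n : Nat) : Mo α := cst A n (nat_lit 0)
/-- `F + k (t0 S - C)` -/
def kpM (A : Alg α) (k : Nat) (x : CH α) (b : BP) (F : Mo α) : Mo α :=
  cond (Nat.beq k (nat_lit 0)) F
    (addM A F (mulM A (cN A k) (subM A (mulM A (cN A b.t0) x.S) x.C)))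
/-- the bound of `ρ` of a piece: `m` first length, `x` models of `chS h m`, `chC h m`, `g` model of
`h² - 1` -/
def pd0 (A : Alg α) (m : Nat) (x : CH α) (g : Mo α) (b : BP) : Bool :=
  cond (Nat.ble (nat_lit 281474976710656) (Nat.mul b.de m)) true
    (cond (psB A (kpM A b.kd x b (subM A (mulM A (cN A b.de) x.S) (onM A)))) true
      (psB A (addM A (subM A (mulM A (cN A b.de) (cN A b.de)) (mulM A (cN A b.t1) (cN A b.t1))) g)))
/-- the bound of `n / chS h n` of a piece -/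
def etB (A : Alg α) (m : Nat) (x : CH α) (b : BP) : Bool :=
  cond (Nat.ble (nat_lit 281474976710656) b.et) true
    (psB A (kpM A b.ke x b
      (subM A (mulM A (cN A b.et) x.S) (cN A (Nat.mul m (nat_lit 281474976710656))))))
def pdB (A : Alg α) (m : Nat) (x : CH α) (g : Mo α) (b : BP) : Bool :=
  andB (Nat.ble b.la m) (andB (pd0 A m x g b) (etB A m x b))
/-- the chain of the pieces: `e` end of the previous one, `N` number of pieces which are left -/
def goB (A : Alg α) (m : Nat) (x : CH α) (g : Mo α) (l : List BP) : Nat → Nat → Bool :=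
  List.rec (motive := fun _ => Nat → Nat → Bool)
    (fun e _ => psB A (subM A (mulM A (cN A e) x.S) x.C))
    (fun b _ ih e N => Nat.rec (motive := fun _ => Bool) false
      (fun N' _ => andB (andB (Nat.ble b.t0 e) (pdB A m x g b)) (ih b.t1 N')) N) l
/-- the first piece -/
def fiB (A : Alg α) (g : Mo α) (b : BP) : Bool :=
  cond (Nat.beq b.t0 (nat_lit 0)) true
    (psB A (subM A g (mulM A (cN A b.t0) (cN A b.t0))))
def cv1 (A : Alg α) (m NB : Nat) (x : CH α) (g : Mo α) (l : List BP) : Bool :=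
  List.rec (motive := fun _ => Bool) false
    (fun b _ _ => andB (fiB A g b) (goB A m x g l b.t0 NB)) l
/-- the pieces cover all lengths larger than `nB` -/
def cvB (A : Alg α) (nB NB : Nat) (bp : List BP) (s : SN α) : Bool :=
  andB (Nat.ble (nat_lit 1) nB)
    (cv1 A (Nat.succ nB) NB (chN A s.h (g1M A s.h) (Nat.succ nB)) (g1M A s.h) bp)

/-- THE TEST OF THE RUNS OF A CELL -/
def gbB (M : Mn α) (C : Cel κ) (d : GB α) : Bool :=
  andB (Nat.ble (nat_lit 7) C.D.p) (andB (spOK M.A (gtM M.A (C.x M).e (C.H M)) d.nd)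
    (cvB M.A C.D.nB C.D.NB d.bp (gsM M.A (C.x M).e (C.H M) d.nd)))
/-- the models of the letter `(a, 2)` -/
def glM (M : Mn α) (C : Cel κ) (d : GB α) (a : Bool) : LC α :=
  lcM M.A (gsM M.A (C.x M).e (C.H M) d.nd) (C.x M).e (C.H M) a

/-! ### the coverage -/

section
variable {lf : Mch α} {A : Alg α} {t : ℕ → ℝ} {h : ℝ} {m : ℕ} {x : CH α} {g : Mo α}

theorem TLC_mk (hA : AOK 3 lf A) (hP : PT 3 t) {v : V3} {μ : ℂ} {th h hd g ts : ℝ}
    {P N Pd Nd : Mt} {c : V9 α} {X : NP α}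
    {s : SN α} (hc : TV 3 lf t (rfJ 1 v) c) (hX : TNP 3 lf t P N Pd Nd X)
    (hs : TSG 3 lf t μ h g th hd ts s) : TLC lf t v μ th h hd P N Pd Nd (lc1 A s c X) :=
  ⟨hX.N.mul hA hP hc, hX.Q.mul hA hP hc, hX.Nd.mul hA hP hc, hX.Qd.mul hA hP hc,
    hc.sub hA (hX.Q.mul hA hP hc), hs.mc, hs.m2, hs.hh, hs.hd, hs.it⟩

theorem TOK_cN (hA : AOK 3 lf A) (hP : PT 3 t) (n : ℕ) :
    TOK 3 lf t ((n / UU : ℝ) : ℂ) (cN A n) :=
  tc (cst_nat hA hP n) (by push_cast; ring)

/-- the sign of `k (t0 S - C)` -/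
theorem kp_pos (hA : AOK 3 lf A) (hP : PT 3 t) (hh : 1 ≤ h) (hm : 1 ≤ m) (hx : TCH lf t h m x)
    {b : BP} {k : ℕ} {f : ℝ} {F : Mo α} (hF : TOK 3 lf t ((f : ℝ) : ℂ) F)
    (hb : psB A (kpM A k x b F) = true) {n : ℕ} (hn : m ≤ n)
    (h0 : (b.t0 : ℝ) / UU ≤ chR h n) : 0 < f := by
  by_cases hk : k = 0
  · have e : Nat.beq k (nat_lit 0) = true := by rw [hk]; rfl
    unfold kpM at hb
    rw [e] at hb
    exact ps_pos hA hP hF hb
  · have e : Nat.beq k (nat_lit 0) = false := by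
      rw [Bool.eq_false_iff]
      intro h4
      exact hk (Nat.eq_of_beq_eq_true h4)
    unfold kpM at hb
    rw [e] at hb
    have K := ps_pos hA hP (f := f + (k : ℝ) / UU * ((b.t0 : ℝ) / UU * chS h m - chC h m))
      (tc (hF.add hA ((TOK_cN hA hP k).mul hA hP (((TOK_cN hA hP b.t0).mul hA hP hx.S).sub hA
        hx.C))) (by push_cast; ring)) hb
    have hs := chS_pos hh hm
    have k1 : (b.t0 : ℝ) / UU ≤ chR h m := h0.trans (chR_anti hh hm hn)
    have k2 : (b.t0 : ℝ) / UU * chS h m ≤ chC h m := by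
      rw [← chR_mul hh hm]
      exact mul_le_mul_of_nonneg_right k1 hs.le
    have hU := UU_pos
    have k3 : (k : ℝ) / UU * ((b.t0 : ℝ) / UU * chS h m - chC h m) ≤ 0 :=
      mul_nonpos_of_nonneg_of_nonpos (by positivity) (by linarith)
    linarith

theorem pd_ok (hA : AOK 3 lf A) (hP : PT 3 t) (hh : 1 ≤ h) (hm : 1 ≤ m)
    (hx : TCH lf t h m x) (hg : TOK 3 lf t ((h ^ 2 - 1 : ℝ) : ℂ) g) {b : BP}
    (hb : pd0 A m x g b = true) {n : ℕ} (hn : m ≤ n) (h0 : (b.t0 : ℝ) / UU ≤ chR h n)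
    (h1 : chR h n ≤ (b.t1 : ℝ) / UU) : 1 / chS h n ≤ (b.de : ℝ) / UU := by
  have hU := UU_pos
  have hn1 : 1 ≤ n := hm.trans hn
  have hs := chS_pos hh hn1
  have hsm := chS_pos hh hm
  rcases condB hb with ⟨hb, _⟩ | hb
  · have k1 : 281474976710656 ≤ b.de * m := Nat.le_of_ble_eq_true hb
    have k2 : UU ≤ (b.de : ℝ) * m := by
      have e : UU = ((281474976710656 : ℕ) : ℝ) := by unfold UU; norm_num
      rw [e]
      exact_mod_cast k1
    rw [div_le_div_iff₀ hs hU, one_mul]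
    have k3 : (m : ℝ) ≤ chS h n := le_trans (by exact_mod_cast hn) (chS_ge hh n)
    exact k2.trans (mul_le_mul_of_nonneg_left k3 (Nat.cast_nonneg _))
  rcases condB hb with ⟨hb, _⟩ | hb
  · have k := kp_pos hA hP hh hm hx (f := (b.de : ℝ) / UU * chS h m - 1)
      (tc (((TOK_cN hA hP b.de).mul hA hP hx.S).sub hA (TOK_on hA hP)) (by push_cast; ring)) hb
      hn h0
    have k2 : chS h m ≤ chS h n := (chS_mono hh).monotone hn
    have k3 : (b.de : ℝ) / UU * chS h m ≤ b.de / UU * chS h n :=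
      mul_le_mul_of_nonneg_left k2 (by positivity)
    rw [div_le_iff₀ hs]
    linarith
  · have k := ps_pos hA hP (f := (b.de : ℝ) / UU * (b.de / UU) - b.t1 / UU * (b.t1 / UU) +
      (h ^ 2 - 1)) (tc ((((TOK_cN hA hP b.de).mul hA hP (TOK_cN hA hP b.de)).sub hA
        ((TOK_cN hA hP b.t1).mul hA hP (TOK_cN hA hP b.t1))).add hA hg) (by push_cast; ring)) hb
    have k2 := chR_sq hh hn1
    have hr := chR_pos hh hn1
    have k3 : chR h n ^ 2 ≤ ((b.t1 : ℝ) / UU) ^ 2 := pow_le_pow_left₀ hr.le h1 2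
    have k4 : (1 / chS h n) ^ 2 ≤ ((b.de : ℝ) / UU) ^ 2 := by
      have e : (1 / chS h n) ^ 2 = chR h n ^ 2 - (h ^ 2 - 1) := by
        rw [k2, one_div, inv_pow]
        ring
      rw [e]
      nlinarith
    exact le_of_sq_le_sq k4 (by positivity)

theorem ch_nC (hh : 1 ≤ h) (n : ℕ) : chS h n ≤ n * chC h n := by
  induction n with
  | zero => simp [Pool.Agent.Helper6.MONO.W2.chS_zero]
  | succ n ih =>
    have h0 : (0 : ℝ) ≤ n := Nat.cast_nonneg n
    have h1 : 0 ≤ chS h n := h0.trans (chS_ge hh n)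
    have h2 := Pool.Agent.Helper6.MONO.W2.chC_ge hh n
    rw [chS_succ, chC_succ]
    push_cast
    have h3 : 0 ≤ ((n : ℝ) + 1) * ((h ^ 2 - 1) * chS h n) :=
      mul_nonneg (by linarith) (mul_nonneg (by nlinarith) h1)
    have h4 : h * chS h n ≤ h * (n * chC h n) := mul_le_mul_of_nonneg_left ih (by linarith)
    have h5 : chC h n ≤ h * chC h n := le_mul_of_one_le_left (by linarith) hh
    nlinarith

/-- `chS h n / n` is increasing -/
theorem ch_lin (hh : 1 ≤ h) {m n : ℕ} (hmn : m ≤ n) : (n : ℝ) * chS h m ≤ m * chS h n := by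
  induction n, hmn using Nat.le_induction with
  | base => exact le_rfl
  | succ n hmn ih =>
    have h0 : (0 : ℝ) ≤ n := Nat.cast_nonneg n
    have hm0 : (0 : ℝ) ≤ m := Nat.cast_nonneg m
    have h1 : 0 ≤ chS h n := h0.trans (chS_ge hh n)
    have h2 := ch_nC hh n
    rcases Nat.eq_zero_or_pos n with rfl | hn
    · obtain rfl : m = 0 := by omega
      simp [Pool.Agent.Helper6.MONO.W2.chS_zero]
    have hn' : (0 : ℝ) < n := by exact_mod_cast hn
    -- (n + 1) S_n ≤ n S_(n+1)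
    have h3 : ((n : ℝ) + 1) * chS h n ≤ n * chS h (n + 1) := by
      rw [chS_succ]
      have h4 : n * chS h n ≤ n * (h * chS h n) :=
        mul_le_mul_of_nonneg_left (le_mul_of_one_le_left h1 hh) h0
      linarith
    have h5 : (n : ℝ) * (((n : ℝ) + 1) * chS h m) ≤ n * (m * chS h (n + 1)) := by
      have h6 : ((n : ℝ) + 1) * (n * chS h m) ≤ (n + 1) * (m * chS h n) :=
        mul_le_mul_of_nonneg_left ih (by linarith)
      have h7 : (m : ℝ) * (((n : ℝ) + 1) * chS h n) ≤ m * (n * chS h (n + 1)) :=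
        mul_le_mul_of_nonneg_left h3 hm0
      linarith
    have h8 := le_of_mul_le_mul_left h5 hn'
    push_cast
    exact h8

theorem et_ok (hA : AOK 3 lf A) (hP : PT 3 t) (hh : 1 ≤ h) (hm : 1 ≤ m)
    (hx : TCH lf t h m x) {b : BP} (hb : etB A m x b = true) {n : ℕ}
    (hn : m ≤ n) (h0 : (b.t0 : ℝ) / UU ≤ chR h n) : (n : ℝ) / chS h n ≤ (b.et : ℝ) / UU := by
  have hU := UU_pos
  have hn1 : 1 ≤ n := hm.trans hn
  have hs := chS_pos hh hn1
  rw [div_le_iff₀ hs]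
  rcases condB hb with ⟨hb, _⟩ | hb
  · have k1 : 281474976710656 ≤ b.et := Nat.le_of_ble_eq_true hb
    have k2 : UU ≤ (b.et : ℝ) := by
      have e : UU = ((281474976710656 : ℕ) : ℝ) := by unfold UU; norm_num
      rw [e]
      exact_mod_cast k1
    have k3 : 1 ≤ (b.et : ℝ) / UU := (one_le_div hU).2 k2
    have k4 := chS_ge hh n
    calc (n : ℝ) ≤ chS h n := k4
      _ ≤ (b.et : ℝ) / UU * chS h n := le_mul_of_one_le_left hs.le k3
  · have k := kp_pos hA hP hh hm hx (f := (b.et : ℝ) / UU * chS h m - m)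
      (tc (((TOK_cN hA hP b.et).mul hA hP hx.S).sub hA (TOK_cN hA hP (m * 281474976710656)))
        (by
          have e : UU = 281474976710656 := by unfold UU; norm_num
          push_cast
          rw [e]
          push_cast
          ring)) hb hn h0
    have k2 := ch_lin hh hn
    have hm' : (0 : ℝ) < m := by exact_mod_cast hm
    have k3 : (m : ℝ) * n ≤ m * ((b.et : ℝ) / UU * chS h n) := by
      have k4 : (n : ℝ) * m ≤ n * ((b.et : ℝ) / UU * chS h m) :=
        mul_le_mul_of_nonneg_left (by linarith) (Nat.cast_nonneg n)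
      have k5 : (b.et : ℝ) / UU * (n * chS h m) ≤ b.et / UU * (m * chS h n) :=
        mul_le_mul_of_nonneg_left k2 (by positivity)
      linarith
    exact le_of_mul_le_mul_left k3 hm'

theorem ry_of (hA : AOK 3 lf A) {e : ℕ} (hP : PT 3 t) (hh : 1 ≤ h) (hm : 1 ≤ m)
    (hx : TCH lf t h m x)
    (hb : psB A (subM A (mulM A (cN A e) x.S) x.C) = true) : chR h m < (e : ℝ) / UU := by
  have k := ps_pos hA hP (f := (e : ℝ) / UU * chS h m - chC h m)
    (tc (((TOK_cN hA hP e).mul hA hP hx.S).sub hA hx.C) (by push_cast; ring)) hb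
  rw [← chR_mul hh hm] at k
  have hs := chS_pos hh hm
  by_contra hc
  push Not at hc
  have := mul_le_mul_of_nonneg_right hc hs.le
  linarith

/-- the chain -/
theorem go_ok (hA : AOK 3 lf A) (hP : PT 3 t) (hh : 1 ≤ h) (hm : 2 ≤ m) (hx : TCH lf t h m x)
    (hg : TOK 3 lf t ((h ^ 2 - 1 : ℝ) : ℂ) g) {n : ℕ} (hn : m ≤ n) :
    ∀ (l : List BP) (e N : ℕ), goB A m x g l e N = true → (e : ℝ) / UU ≤ chR h n →
      ∃ i < N, bcT h l i n
  | [], e, N, hb, he => by
    exfalso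
    have k := ry_of hA hP hh (by omega) hx (e := e) hb
    have k2 := chR_anti hh (m := m) (by omega) hn
    linarith
  | b :: l, e, 0, hb, _ => absurd (show false = true from hb) Bool.false_ne_true
  | b :: l, e, N + 1, hb, he => by
    obtain ⟨b1, b2⟩ := andB_t' (show andB (andB (Nat.ble b.t0 e) (pdB A m x g b))
      (goB A m x g l b.t1 N) = true from hb)
    obtain ⟨b3, b4⟩ := andB_t' b1
    have k0 : (b.t0 : ℝ) ≤ e := by exact_mod_cast Nat.le_of_ble_eq_true b3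
    obtain ⟨b7, b8⟩ := andB_t' b4
    obtain ⟨b5, b6⟩ := andB_t' b8
    have k1 : b.la ≤ m := Nat.le_of_ble_eq_true b7
    rcases le_total (chR h n) ((b.t1 : ℝ) / UU) with h1 | h1
    · have h0 : (b.t0 : ℝ) / UU ≤ chR h n := (div_le_div_of_nonneg_right k0 UU_pos.le).trans he
      exact ⟨0, Nat.succ_pos _, b, rfl, h0, h1, pd_ok hA hP hh (by omega) hx hg b5 hn h0 h1,
        et_ok hA hP hh (by omega) hx b6 hn h0, by omega, k1.trans hn⟩
    · obtain ⟨i, hi, c, hc, k⟩ := go_ok hA hP hh hm hx hg hn l b.t1 N b2 h1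
      exact ⟨i + 1, Nat.succ_lt_succ hi, c, by simpa using hc, k⟩

/-- THE PIECES COVER ALL LENGTHS -/
theorem cv_ok (hA : AOK 3 lf A) (hP : PT 3 t) (hh : 1 ≤ h) {s : SN α}
    (hs : TOK 3 lf t ((h : ℝ) : ℂ) s.h)
    {nB NB : ℕ} {bp : List BP} (hb : cvB A nB NB bp s = true) {n : ℕ} (hn : nB < n) :
    ∃ i < NB, bcT h bp i n := by
  obtain ⟨b1, b2⟩ := andB_t' hb
  have hn1 : 1 ≤ nB := Nat.le_of_ble_eq_true b1
  have hg := TOK_g1 hA hP hs
  have hx := TCH_all hA hP hs hg (nB + 1)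
  cases bp with
  | nil => exact absurd (show false = true from b2) Bool.false_ne_true
  | cons b l =>
    obtain ⟨b3, b4⟩ := andB_t' (show andB (fiB A (g1M A s.h) b) (goB A (nB + 1)
      (chN A s.h (g1M A s.h) (nB + 1)) (g1M A s.h) (b :: l) b.t0 NB) = true from b2)
    refine go_ok hA hP hh (by omega) hx hg hn (b :: l) b.t0 NB b4 ?_
    have hn2 : 1 ≤ n := by omega
    have hr := chR_pos hh hn2
    rcases condB b3 with ⟨k, _⟩ | k
    · have e : b.t0 = 0 := Nat.eq_of_beq_eq_true k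
      rw [e, Nat.cast_zero, zero_div]
      exact hr.le
    · have k1 := ps_pos hA hP (f := (h ^ 2 - 1) - (b.t0 : ℝ) / UU * (b.t0 / UU))
        (tc (hg.sub hA ((TOK_cN hA hP b.t0).mul hA hP (TOK_cN hA hP b.t0)))
          (by push_cast; ring)) k
      have k2 := chR_sq_ge hh hn2
      exact le_of_sq_le_sq (by nlinarith) hr.le

/-! ### the data at a point -/

/-- THE DATA OF THE RUNS AT A POINT -/
structure GPt (lf : Mch α) (p : ℕ) (v vd : V3) (t : ℕ → ℝ) (K : Bool → LC α) (h : ℝ) :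
    Prop where
  h1 : 1 ≤ h
  sp : ∀ a : Bool, ∃ (μ : ℂ) (th hd : ℝ) (P N Pd Nd : Mt), 0 ≤ hd ∧ star μ * μ = 1 ∧
    SPC (rfJ 1 v * sDm (phi p) a 2) (rfd 1 0 v vd * sDm (phi p) a 2) μ (-star μ ^ 2) th (-2 * th) h
      hd P N Pd Nd ∧ TLC lf t v μ th h hd P N Pd Nd (K a)

/-- the trace of a model -/
theorem TV_tr (hA : AOK 3 lf A) {M : Mt} {U : V9 α} (hU : TV 3 lf t M U) :
    TOK 3 lf t M.trace (trM A U) :=
  tc ((hU.a.add hA hU.e).add hA hU.i) (Matrix.trace_fin_three M).symm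

theorem TOK_gt (hA : AOK 3 lf A) (hP : PT 3 t) {p : ℕ} {v : V3} {F : FH α} {E : Mo α}
    (hv : TW 3 lf t v F.v) (hE : TOK 3 lf t (ep (phi p)) E) :
    TOK 3 lf t (rB p v).trace (gtM A E F) := by
  have hd := TOK_er hA hP hE false 2
  have h := TV_b hA hP (TV_ot hA hP hv) hd (hd.conj hA)
  have e : rB p v = bE (ot v (yv v)) (dA (phi p) false) (star (dA (phi p) false)) := bE_of _ _ _
  rw [e]
  exact TV_tr hA h

theorem TOK_gd (hA : AOK 3 lf A) (hP : PT 3 t) {p : ℕ} {v vd : V3} {F : FH α} {E : Mo α}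
    (hv : TW 3 lf t v F.v) (hd : TW 3 lf t vd F.vd) (hE : TOK 3 lf t (ep (phi p)) E) :
    TOK 3 lf t (rBd p v vd).trace (gdM A E F) := by
  have h0 := TOK_er hA hP hE false 2
  have h := TV_bd hA hP (TV_ot' hA hP hv hd) h0 (h0.conj hA)
  have e : rBd p v vd = bdE (ot vd (yv v) + ot v (yv vd)) (dA (phi p) false)
      (star (dA (phi p) false)) := bdE_of _ _ _ _
  rw [e]
  exact TV_tr hA h

end

section

variable {lf : Mch α} {M : Mn α} {C : Cel κ} {q r : ℕ} {x : ℝ} {t : ℕ → ℝ} {d : GB α}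

/-- **THE DATA OF THE RUNS AT A POINT OF A CELL** -/
theorem gb_pt (hM : MnL lf M) (hC : PtC lf M C q r x t) (hdc : lf.vl d.nd.c)
    (hds : lf.vl d.nd.s) (hg : C.D.gb = true) (hb : gbB M C d = true) :
    ∃ h : ℝ, GPt lf C.D.p (vX C q r x) (wX C q r x) t (glM M C d) h ∧
      ∀ n, C.D.nB < n → ∃ i < C.D.NB, bcT h d.bp i n := by
  have hA := hM.a3
  obtain ⟨b1, b2⟩ := andB_t' hb
  obtain ⟨b3, b4⟩ := andB_t' b2
  have hp7 : 7 ≤ C.D.p := Nat.le_of_ble_eq_true b1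
  have hp3 := hC.hp
  have hq : 3 ≤ q := hp3.trans hC.hpq
  have hr : 3 ≤ r := hq.trans hC.hqr
  obtain ⟨htt, hx1, two, tan, _, _⟩ := ptF_k hC.hp hC.hpq hC.hqr hC.hr4 hC.hxA hC.hx2
  have hE := hC.bx.e
  have hT := TOK_gt hA hC.hP hC.H.hv hE
  have hTd := TOK_gd hA hC.hP hC.H.hv hC.H.hvd hE
  obtain ⟨c1, _⟩ := andB_t' b3
  obtain ⟨c2, _⟩ := andB_t' c1
  obtain ⟨_, c4⟩ := andB_t' c2
  have two' : TOK 3 lf t ((2 * (rB C.D.p (vX C q r x)).trace.re : ℝ) : ℂ)
      (re2M M.A (gtM M.A (C.x M).e (C.H M))) := TOK_re2 hA hT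
  have hW : TOK 3 lf t ((2 * (rB C.D.p (vX C q r x)).trace.im : ℝ) * Complex.I)
      (wtM M.A (gtM M.A (C.x M).e (C.H M))) := by
    refine tc (hT.sub hA (hT.conj hA)) ?_
    apply Complex.ext
    · simp
    · simp; ring
  have h3 : TOK 3 lf t ((-(3 * (2 * (rB C.D.p (vX C q r x)).trace.re) ^ 2 -
      (2 * (rB C.D.p (vX C q r x)).trace.im) ^ 2) : ℝ) : ℂ)
      (b3M M.A (re2M M.A (gtM M.A (C.x M).e (C.H M))) (wtM M.A (gtM M.A (C.x M).e (C.H M)))) := by
    have rr := two'.mul hA hC.hP two'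
    refine tc (TOK_neg hA hC.hP ((rr.add hA (TOK_db hA rr)).add hA (hW.mul hA hC.hP hW))) ?_
    push_cast
    linear_combination (-(4 * ((rB C.D.p (vX C q r x)).trace.im : ℂ) ^ 2)) * Complex.I_sq
  have h4 := ps_pos hA hC.hP h3 c4
  obtain ⟨eT, _⟩ := Pool.Agent.Helper21.NB.tr_pt hp3 hq hr hx1 hC.hx2 htt
  have eT' : (rB C.D.p (vX C q r x)).trace = _ := eT
  have hx4 : (0 : ℝ) ≤ 1 - (x / 2) ^ 2 := by nlinarith [hC.hx2]
  have h5 : 3 * (Pool.Agent.Helper21.NB.SN C.D.p q r + Pool.Agent.Helper21.NB.KN C.D.p q r * x / 2) ^ 2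
      < Pool.Agent.Helper21.NB.KN C.D.p q r ^ 2 * (1 - x ^ 2 / 4) := by
    rw [eT'] at h4
    have e : (2 * (Pool.Agent.Helper21.NB.KN C.D.p q r * Real.sqrt (1 - (x / 2) ^ 2))) ^ 2 =
        4 * (Pool.Agent.Helper21.NB.KN C.D.p q r ^ 2 * (1 - x ^ 2 / 4)) := by
      rw [mul_pow, mul_pow, Real.sq_sqrt hx4]
      ring
    have h6 : 0 < -(3 * (2 * (Pool.Agent.Helper21.NB.SN C.D.p q r +
      Pool.Agent.Helper21.NB.KN C.D.p q r * x / 2)) ^ 2 -
      (2 * (Pool.Agent.Helper21.NB.KN C.D.p q r * Real.sqrt (1 - (x / 2) ^ 2))) ^ 2) := h4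
    rw [e] at h6
    linarith
  obtain ⟨c, s, h, b, H, _, t2, hd0, _⟩ := nb4 (by omega) hC.hpq hC.hqr hC.hxA hx1 hC.hx2 htt
    (SN_7 hp7 hC.hpq hC.hqr) h5 (hC.hQ hg)
  have HB : Br ((rB C.D.p (vX C q r x)).trace.re - 1) (rB C.D.p (vX C q r x)).trace.im c s h := by
    rw [eT']
    exact ⟨H.s0, H.one, H.C1, H.hC, by show _ - 1 = _; rw [H.re]; ring, H.im⟩
  have hS := TSN_sp hA hC.hP hT hTd HB hdc hds b3
  have hSR := SR.of_Br (Td := (rBd C.D.p (vX C q r x) (wX C q r x)).trace) HB hS.ne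
  have hG := TSG.of hS
  have hdd : hdN c s h (rBd C.D.p (vX C q r x) (wX C q r x)).trace =
      hdC c s h (2 * Real.sin (phi C.D.p) ^ 2) b := by
    have t2' : (rBd C.D.p (vX C q r x) (wX C q r x)).trace = _ := t2
    rw [t2']
    unfold hdN thN Pool.Agent.Helper62.NBM.gN muN hdC thC
    simp only [Complex.mul_re, Complex.mul_im, Complex.star_def, Complex.conj_re, Complex.conj_im]
    have e : h + c * (4 * c ^ 2 - 3) = h + 4 * c ^ 3 - 3 * c := by ring
    rw [e]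
    have e2 : (2 * Real.sin (phi C.D.p) ^ 2 * -s + b * c) = b * c - 2 * Real.sin (phi C.D.p) ^ 2 * s := by
      ring
    rw [e2]
    ring
  refine ⟨h, ⟨H.h1, fun a => ?_⟩, fun n hn => cv_ok hA hC.hP H.h1 hS.hh b4 hn⟩
  obtain ⟨P, N, Pd, Nd, K, hX⟩ := TNP_a hA hC.hP hC.H.hv hC.H.hvd two tan hE hSR hG rfl rfl a
  refine ⟨muA a c s, thA a _, _, P, N, Pd, Nd, ?_, ?_, K, ?_⟩
  · rw [hdd]
    exact hd0.le
  · cases a with
    | false => exact hSR.u
    | true =>
      show star (star (muN c s)) * star (muN c s) = 1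
      rw [star_star, mul_comm]
      exact hSR.u
  · cases a with
    | false => exact TLC_mk hA hC.hP hC.H.hc hX hG
    | true => exact TLC_mk hA hC.hP hC.H.hc hX (hG.cj hA)

end

/-! ### the dispatcher -/

/-- kinds 6 and 7 -/
def gK (A : Alg α) (T : TK α κ γ) (F : FH α) (K : LC α) (bp : List BP) (k n : Nat) (k1 k2 : κ)
    (Sl Sr : V9 α) (gs : List γ) : Bool :=
  cond (Nat.beq k (nat_lit 6)) (nth gs (fun g => bxK A T F K n k1 k2 Sl Sr g) (nat_lit 0))
    (btK A T F K bp n k1 k2 Sl Sr gs)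
def gI (A : Alg α) (G3 : GT α) (G4 : GT (N3 α)) (K : LC α) (I : LI α) (bp : List BP) (k n : Nat)
    (f g : Fr) (m : Mu) (R : Mo α) (Kf Kg : KM α) : Bool :=
  cond (Nat.beq k (nat_lit 6)) (bxI A G3 K I n f g m R Kf Kg)
    (btI A G4 K I bp n f g m R Kf Kg)
/-- with the frames and the scale -/
def gJ (M : Mn α) (T : TK α κ γ) (C : Cel κ) (K : LC α) (bp : List BP) (k n i f : Nat)
    (d : Mu × Sf) : Bool :=
  andB (frOK (C.fq i) (C.fq f)) (andB (sfOK d.2) (gI M.A (g3V M) (g4V M) K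
    (liM M.A (C.H M).c K) bp k n (C.fq i) (C.fq f) d.1 (sfM M.A M.qd d.2)
    (frK M.A (C.fq i) (T.km (C.fo i))) (frK M.A (C.fq f) (T.km (C.fo f)))))
/-- a letter with runs -/
def isG (gb : Bool) (c : Nat) : Bool := andB gb (Nat.beq (Nat.div c (nat_lit 2)) (nat_lit 2))
/-- **ONE ITEM, ALL KINDS** -/
def itG (M : Mn α) (T : TK α κ γ) (C : Cel κ) (d : GB α) (c P i j : Nat) (Sl Sr : V9 α)
    (gs : List γ) : Bool :=
  cond (Nat.ble (nat_lit 6) (Nat.mod P (nat_lit 8)))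
    (andB (isG C.D.gb c) (gK M.A T (C.H M) (glM M C d (Nat.beq (Nat.mod c (nat_lit 2)) (nat_lit 1)))
      d.bp (Nat.mod P (nat_lit 8)) (Nat.div P (nat_lit 8)) (C.fo i) (C.fo j) Sl Sr gs))
    (nth gs (fun g => aK M T C c P i j Sl Sr g) (nat_lit 0))
/-- **ONE INVARIANCE ITEM, ALL KINDS** -/
def itGJ (M : Mn α) (T : TK α κ γ) (C : Cel κ) (d : GB α) (c P i f : Nat) (m : Mu × Sf) : Bool :=
  cond (Nat.ble (nat_lit 6) (Nat.mod P (nat_lit 8)))
    (andB (isG C.D.gb c) (gJ M T C (glM M C d (Nat.beq (Nat.mod c (nat_lit 2)) (nat_lit 1)))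
      d.bp (Nat.mod P (nat_lit 8)) (Nat.div P (nat_lit 8)) i f m))
    (aI M T C c P i f m)
/-- THE INSTANCE -/
def itGI (M : Mn α) (T : TK α κ γ) (d : GB α) : IT α κ (List γ) (Mu × Sf) :=
  ⟨fun C c P i j Sl Sr gs => itG M T C d c P i j Sl Sr gs,
    fun C c P i f m => itGJ M T C d c P i f m⟩

section

variable {lf : Mch α} {M : Mn α} {C : Cel κ} {q r : ℕ} {x : ℝ} {t : ℕ → ℝ} {d : GB α}

/-- **THE LAWS OF THE ITEMS, ALL KINDS** -/
theorem itl_G (hM : MnL lf M) {T : TK α κ γ} {KV : κ → (ℕ → ℝ) → Mt}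
    (hT : TKL lf (nM 3 lf) KV T) (hC : PtC lf M C q r x t) (hdc : lf.vl d.nd.c)
    (hds : lf.vl d.nd.s) (hb : C.D.gb = true → gbB M C d = true) : ∃ bc : ℕ → ℕ → Prop,
      (C.D.gb = true → ∀ n, C.D.nB < n → ∃ i < C.D.NB, bc i n) ∧
      ITL lf KV (itGI M T d) C q r x t (RTK C.tb (nW (phi C.D.p) (vX C q r x)) bc) := by
  have hA := hM.a3
  obtain ⟨htt, hx1, two, tan, _, _⟩ := ptF_k hC.hp hC.hpq hC.hqr hC.hr4 hC.hxA hC.hx2
  obtain ⟨h, hG⟩ : ∃ h : ℝ, C.D.gb = true →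
      GPt lf C.D.p (vX C q r x) (wX C q r x) t (glM M C d) h ∧
      ∀ n, C.D.nB < n → ∃ i < C.D.NB, bcT h d.bp i n := by
    by_cases hg : C.D.gb = true
    · obtain ⟨h, H⟩ := gb_pt hM hC hdc hds hg (hb hg)
      exact ⟨h, fun _ => H⟩
    · exact ⟨0, fun h => absurd h hg⟩
  refine ⟨bcT h d.bp, fun hg => (hG hg).2, ⟨?_, ?_⟩⟩
  · intro c P i j Sl Sr gs S S' hk hl hr
    rcases condB hk with ⟨h6, h7⟩ | h7
    · obtain ⟨g, rfl⟩ : ∃ g : Sy, c = sc g := ⟨cs c, (sc_cs c).symm⟩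
      have ecs : cs (sc g) = g := Pool.Agent.Helper6.MONO.W2.TY.cs_sc g
      obtain ⟨g1, g2⟩ := andB_t' h7
      obtain ⟨g3, g4⟩ := andB_t' (show andB C.D.gb (Nat.beq (Nat.div (sc g) (nat_lit 2))
        (nat_lit 2)) = true from g1)
      have e2 : g.2 = 2 := by
        have k : Nat.div (sc g) 2 = 2 := Nat.eq_of_beq_eq_true g4
        rwa [sc_div2] at k
      obtain ⟨μ, th, hd, P', N, Pd', Nd, m1, m2, m3, m4⟩ := (hG g3).1.sp g.1
      have hh := (hG g3).1.h1
      rw [sc_mod] at g2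
      replace m3 : SPC (rfJ 1 (vX C q r x) * sDm (phi C.D.p) g.1 g.2)
          (rfd 1 0 (vX C q r x) (wX C q r x) * sDm (phi C.D.p) g.1 g.2) μ (-star μ ^ 2) th (-2 * th) h
          hd P' N Pd' Nd := by
        rw [e2]
        exact m3
      rcases P_67 h6 with e | e
      · have ee : Nat.beq (Nat.mod P (nat_lit 8)) (nat_lit 6) = true := by
          show Nat.beq (P % 8) 6 = true
          rw [e]
          rfl
        unfold gK at g2
        rw [ee] at g2
        rw [ecs, Pd_k, e]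
        obtain ⟨y, _, g5⟩ := nth_t (show nth gs (fun g' => bxK M.A T (C.H M) (glM M C d g.1)
          (Nat.div P (nat_lit 8)) (C.fo i) (C.fo j) Sl Sr g') (nat_lit 0) = true from g2)
        exact bxK_ok hA hT hC.hP two tan hC.H m3 m2 m4 hl hr g5
      · have ee : Nat.beq (Nat.mod P (nat_lit 8)) (nat_lit 6) = false := by
          show Nat.beq (P % 8) 6 = false
          rw [e]
          rfl
        unfold gK at g2
        rw [ee] at g2
        rw [ecs, Pd_k, e]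
        intro n hn
        exact btK_ok hM.n hT hC.hP two tan hC.H m3 m2 hh m1 m4 hl hr (show btK M.A T (C.H M)
          (glM M C d g.1) d.bp (Nat.div P (nat_lit 8)) (C.fo i) (C.fo j) Sl Sr gs = true from g2) hn
    · obtain ⟨y, _, g5⟩ := nth_t h7
      exact aK_ok hM hT hC g5 hl hr
  · intro c P i f m hk
    rcases condB hk with ⟨h6, h7⟩ | h7
    · obtain ⟨g, rfl⟩ : ∃ g : Sy, c = sc g := ⟨cs c, (sc_cs c).symm⟩
      have ecs : cs (sc g) = g := Pool.Agent.Helper6.MONO.W2.TY.cs_sc g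
      obtain ⟨g1, g2⟩ := andB_t' h7
      obtain ⟨g3, g4⟩ := andB_t' (show andB C.D.gb (Nat.beq (Nat.div (sc g) (nat_lit 2))
        (nat_lit 2)) = true from g1)
      have e2 : g.2 = 2 := by
        have k : Nat.div (sc g) 2 = 2 := Nat.eq_of_beq_eq_true g4
        rwa [sc_div2] at k
      obtain ⟨μ, th, hd, P', N, Pd', Nd, m1, m2, m3, m4⟩ := (hG g3).1.sp g.1
      have hh := (hG g3).1.h1
      rw [sc_mod] at g2
      replace m3 : SPC (rfJ 1 (vX C q r x) * sDm (phi C.D.p) g.1 g.2)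
          (rfd 1 0 (vX C q r x) (wX C q r x) * sDm (phi C.D.p) g.1 g.2) μ (-star μ ^ 2) th (-2 * th) h
          hd P' N Pd' Nd := by
        rw [e2]
        exact m3
      obtain ⟨hfr, g2⟩ := andB_t' g2
      obtain ⟨hsf, g2⟩ := andB_t' g2
      have r0 := sf_pos hsf hC.hP le_rfl
      have hS := TOK_sf' hA hC.hP le_rfl hM.qd m.2
      have hKf : HK 3 lf t ((frR (C.fq i))ᴴ * KV (C.fo i) t * frR (C.fq i))
          (frK M.A (C.fq i) (T.km (C.fo i))) :=
        (hT.km (k := C.fo i) hC.hP).g9 hA hC.hP (TV_frA hA hC.hP _)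
      have hKg : HK 3 lf t ((frR (C.fq f))ᴴ * KV (C.fo f) t * frR (C.fq f))
          (frK M.A (C.fq f) (T.km (C.fo f))) :=
        (hT.km (k := C.fo f) hC.hP).g9 hA hC.hP (TV_frA hA hC.hP _)
      have hI := TLI_mk hA hC.hP hC.H.hc m4
      rcases P_67 h6 with e | e
      · have ee : Nat.beq (Nat.mod P (nat_lit 8)) (nat_lit 6) = true := by
          show Nat.beq (P % 8) 6 = true
          rw [e]
          rfl
        unfold gI at g2
        rw [ee] at g2
        rw [ecs, Pd_k, e]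
        exact bxI_ok hA (g3V_ok hM) hC.hP two m3 m2 m4 hI hfr hKf hKg r0 hS (show bxI M.A (g3V M)
          (glM M C d g.1) (liM M.A (C.H M).c (glM M C d g.1)) (Nat.div P (nat_lit 8)) (C.fq i)
          (C.fq f) m.1 (sfM M.A M.qd m.2) (frK M.A (C.fq i) (T.km (C.fo i)))
          (frK M.A (C.fq f) (T.km (C.fo f))) = true from g2)
      · have ee : Nat.beq (Nat.mod P (nat_lit 8)) (nat_lit 6) = false := by
          show Nat.beq (P % 8) 6 = false
          rw [e]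
          rfl
        unfold gI at g2
        rw [ee] at g2
        rw [ecs, Pd_k, e]
        intro n hn
        exact btI_ok hM.n (g4V_ok hM) hC.hP two m3 m2 hh m4 hI hfr hKf hKg r0 hS (show btI M.A
          (g4V M) (glM M C d g.1) (liM M.A (C.H M).c (glM M C d g.1)) d.bp
          (Nat.div P (nat_lit 8)) (C.fq i) (C.fq f) m.1 (sfM M.A M.qd m.2)
          (frK M.A (C.fq i) (T.km (C.fo i))) (frK M.A (C.fq f) (T.km (C.fo f))) = true from g2) hn
    · exact aI_ok hM hT hC h7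

end

end Pool.Agent.Helper91.TMK.NBX
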