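import Pool.Agent.Helper62.C75.NBV

/-!
Row (C) of M7 of MP_c75db0 (star frame), real side: the tail of a run with common vertices for the
pair `(ρ, n ρ)`: the derivative contains `n ρ` times an imaginary multiple of the matrix of `ρ`.
-/

set_option autoImplicit false
noncomputable section
namespace Pool.Agent.Helper62.NBE

open Matrix
open Pool.Agent.Helper6.MONO (V3)
open Pool.Agent.Helper6.MONO.W2
open Pool.Agent.Helper26.XH (hH hL hR)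
open Pool.Agent.Helper21.SW (cK)
open Pool.Agent.Helper62.NBV

/-- the eight tests: directions `X + la z_v W`, matrices `M + z_v U` and `M` -/
structure T8 (K1 K2 X W M U : Mt) (z : ℂ) (la : ℝ) : Prop where
  a0 : NT K1 K2 (X + (la * z) • W) (M + z • U)
  a1 : NT K1 K2 (X + (la * (Complex.I * z)) • W) (M + (Complex.I * z) • U)
  a2 : NT K1 K2 (X - (la * z) • W) (M - z • U)
  a3 : NT K1 K2 (X - (la * (Complex.I * z)) • W) (M - (Complex.I * z) • U)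
  b0 : NT K1 K2 (X + (la * z) • W) M
  b1 : NT K1 K2 (X + (la * (Complex.I * z)) • W) M
  b2 : NT K1 K2 (X - (la * z) • W) M
  b3 : NT K1 K2 (X - (la * (Complex.I * z)) • W) M

/-- the real part at a common phase -/
theorem ev (x m μ ρ : ℂ) (κ s : ℝ) :
    ((x + s * ρ * (Complex.I * κ * μ)) * star (m + ρ * μ)).re =
      (x * star m).re + (x * star (ρ * μ)).re + s * κ * ((Complex.I * (ρ * μ)) * star m).re := by
  simp only [Complex.star_def, Complex.mul_re, Complex.mul_im, Complex.add_re, Complex.add_im,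
    Complex.conj_re, Complex.conj_im, Complex.I_re, Complex.I_im, Complex.ofReal_re,
    Complex.ofReal_im]
  ring

theorem ev0 (x m μ ρ : ℂ) (κ s : ℝ) :
    ((x + s * ρ * (Complex.I * κ * μ)) * star m).re =
      (x * star m).re + s * κ * ((Complex.I * (ρ * μ)) * star m).re := by
  simp only [Complex.star_def, Complex.mul_re, Complex.mul_im, Complex.add_re, Complex.add_im,
    Complex.conj_re, Complex.conj_im, Complex.I_re, Complex.I_im, Complex.ofReal_re,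
    Complex.ofReal_im]
  ring

theorem key {x m μ z ρ : ℂ} {κ la s w0 w1 w2 w3 : ℝ} (hla : 0 < la) (hs : la ≤ s)
    (k0 : 0 ≤ w0) (k1 : 0 ≤ w1) (k2 : 0 ≤ w2) (k3 : 0 ≤ w3) (ks : w0 + w1 + w2 + w3 = 1)
    (hρ : (s : ℂ) * ρ = w0 * (la * z) + w1 * (Complex.I * (la * z)) + w2 * (-(la * z)) +
      w3 * (-(Complex.I * (la * z))))
    (a0 : 0 ≤ (x * star m).re + (x * star (z * μ)).re +
      la * κ * ((Complex.I * (z * μ)) * star m).re)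
    (a1 : 0 ≤ (x * star m).re + (x * star ((Complex.I * z) * μ)).re +
      la * κ * ((Complex.I * ((Complex.I * z) * μ)) * star m).re)
    (a2 : 0 ≤ (x * star m).re + (x * star ((-z) * μ)).re +
      la * κ * ((Complex.I * ((-z) * μ)) * star m).re)
    (a3 : 0 ≤ (x * star m).re + (x * star ((-(Complex.I * z)) * μ)).re +
      la * κ * ((Complex.I * ((-(Complex.I * z)) * μ)) * star m).re)
    (b0 : 0 ≤ (x * star m).re + la * κ * ((Complex.I * (z * μ)) * star m).re)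
    (b1 : 0 ≤ (x * star m).re + la * κ * ((Complex.I * ((Complex.I * z) * μ)) * star m).re)
    (b2 : 0 ≤ (x * star m).re + la * κ * ((Complex.I * ((-z) * μ)) * star m).re)
    (b3 : 0 ≤ (x * star m).re + la * κ * ((Complex.I * ((-(Complex.I * z)) * μ)) * star m).re) :
    0 ≤ (x * star m).re + (x * star (ρ * μ)).re +
      s * κ * ((Complex.I * (ρ * μ)) * star m).re := by
  have hs0 : 0 < s := hla.trans_le hs
  obtain ⟨θ, hθ⟩ : ∃ θ : ℝ, θ = la / s := ⟨_, rfl⟩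
  have hθs : la = θ * s := by rw [hθ]; field_simp
  have hθ0 : 0 ≤ θ := by rw [hθ]; positivity
  have hθ1 : θ ≤ 1 := by rw [hθ, div_le_one hs0]; exact hs
  have hsc : (s : ℂ) ≠ 0 := by exact_mod_cast hs0.ne'
  have e1 : ρ = θ * (((w0 - w2 : ℝ) : ℂ) + Complex.I * ((w1 - w3 : ℝ) : ℂ)) * z := by
    apply mul_left_cancel₀ hsc
    rw [hρ, hθs]
    push_cast
    ring
  have e2 : w3 = 1 - w0 - w1 - w2 := by linarith
  have m0 := mul_nonneg (mul_nonneg hθ0 k0) a0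
  have m1 := mul_nonneg (mul_nonneg hθ0 k1) a1
  have m2 := mul_nonneg (mul_nonneg hθ0 k2) a2
  have m3 := mul_nonneg (mul_nonneg hθ0 k3) a3
  have n0 := mul_nonneg (mul_nonneg (sub_nonneg.2 hθ1) k0) b0
  have n1 := mul_nonneg (mul_nonneg (sub_nonneg.2 hθ1) k1) b1
  have n2 := mul_nonneg (mul_nonneg (sub_nonneg.2 hθ1) k2) b2
  have n3 := mul_nonneg (mul_nonneg (sub_nonneg.2 hθ1) k3) b3
  have S := add_nonneg (add_nonneg (add_nonneg m0 m1) (add_nonneg m2 m3))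
    (add_nonneg (add_nonneg n0 n1) (add_nonneg n2 n3))
  refine S.trans (le_of_eq ?_)
  rw [e1, e2, hθs]
  simp only [Complex.star_def, Complex.mul_re, Complex.mul_im, Complex.add_re, Complex.add_im,
    Complex.conj_re, Complex.conj_im, Complex.I_re, Complex.I_im, Complex.ofReal_re,
    Complex.ofReal_im, Complex.neg_re, Complex.neg_im]
  ring

theorem T8.out {K1 K2 X M U : Mt} {z ρ : ℂ} {la κ s : ℝ}
    (H : T8 K1 K2 X ((Complex.I * (κ : ℂ)) • U) M U z la) (hla : 0 < la) (hs : la ≤ s)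
    (h : 2 * ‖(s : ℂ) * ρ‖ ^ 2 ≤ ‖(la : ℂ) * z‖ ^ 2) :
    NT K1 K2 (X + ((s : ℂ) * ρ) • ((Complex.I * (κ : ℂ)) • U)) (M + ρ • U) := by
  obtain ⟨w0, w1, w2, w3, k0, k1, k2, k3, ks, kρ⟩ := sq_wt h
  intro u hu y hy
  have E : ∀ w : ℂ, ∀ q : ℝ, ∀ Y V : Mt, Y = X + ((q : ℂ) * w) • ((Complex.I * (κ : ℂ)) • U) →
      V = M + w • U → (brJ 1 (Y.mulVec u) y * star (brJ 1 (V.mulVec u) y)).re =
      (brJ 1 (X.mulVec u) y * star (brJ 1 (M.mulVec u) y)).re +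
        (brJ 1 (X.mulVec u) y * star (w * brJ 1 (U.mulVec u) y)).re +
        q * κ * ((Complex.I * (w * brJ 1 (U.mulVec u) y)) * star (brJ 1 (M.mulVec u) y)).re := by
    intro w q Y V eY eV
    rw [eY, eV, Matrix.add_mulVec, Matrix.add_mulVec, Matrix.smul_mulVec, Matrix.smul_mulVec,
      Matrix.smul_mulVec, brJ_add_left, brJ_add_left, brJ_smul_left, brJ_smul_left, brJ_smul_left,
      ev]
  have E0 : ∀ w : ℂ, ∀ q : ℝ, ∀ Y : Mt, Y = X + ((q : ℂ) * w) • ((Complex.I * (κ : ℂ)) • U) →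
      (brJ 1 (Y.mulVec u) y * star (brJ 1 (M.mulVec u) y)).re =
      (brJ 1 (X.mulVec u) y * star (brJ 1 (M.mulVec u) y)).re +
        q * κ * ((Complex.I * (w * brJ 1 (U.mulVec u) y)) * star (brJ 1 (M.mulVec u) y)).re := by
    intro w q Y eY
    rw [eY, Matrix.add_mulVec, Matrix.smul_mulVec, Matrix.smul_mulVec, brJ_add_left,
      brJ_smul_left, brJ_smul_left, ev0]
  rw [E ρ s _ _ rfl rfl]
  have n1 : ∀ w : ℂ, X - ((la : ℂ) * w) • ((Complex.I * (κ : ℂ)) • U) =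
      X + ((la : ℂ) * (-w)) • ((Complex.I * (κ : ℂ)) • U) := by
    intro w
    rw [mul_neg, neg_smul, sub_eq_add_neg]
  have n2 : ∀ w : ℂ, M - w • U = M + (-w) • U := by
    intro w
    rw [neg_smul, sub_eq_add_neg]
  refine key hla hs k0 k1 k2 k3 ks kρ ?_ ?_ ?_ ?_ ?_ ?_ ?_ ?_
  · rw [← E z la _ _ rfl rfl]; exact H.a0 u hu y hy
  · rw [← E (Complex.I * z) la _ _ rfl rfl]; exact H.a1 u hu y hy
  · rw [← E (-z) la _ _ (n1 z) (n2 z)]; exact H.a2 u hu y hy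
  · rw [← E (-(Complex.I * z)) la _ _ (n1 _) (n2 _)]; exact H.a3 u hu y hy
  · rw [← E0 z la _ rfl]; exact H.b0 u hu y hy
  · rw [← E0 (Complex.I * z) la _ rfl]; exact H.b1 u hu y hy
  · rw [← E0 (-z) la _ (n1 z)]; exact H.b2 u hu y hy
  · rw [← E0 (-(Complex.I * z)) la _ (n1 _)]; exact H.b3 u hu y hy

/-- the part with `η` -/
theorem bb_eta (r h hd dh : ℝ) (ρ η : ℂ) (c Qc Ndc Qdc : Mt) :
    bb r h hd dh ρ η c Qc Ndc Qdc = bb r h hd dh ρ 0 c Qc Ndc Qdc +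
      η • ((Complex.I * ((r ^ 2 * dh : ℝ) : ℂ)) • Qc) := by
  unfold bb
  push_cast
  module

theorem bF_eta (r h hd dh : ℝ) (ρ η : ℂ) (L R2 c Nc Qc Ndc Qdc : Mt) :
    bF r h hd dh ρ η L R2 c Nc Qc Ndc Qdc = bF r h hd dh ρ 0 L R2 c Nc Qc Ndc Qdc +
      η • ((Complex.I * ((r ^ 2 * dh : ℝ) : ℂ)) • Qc) := by
  unfold bF
  rw [bb_eta]
  module

section
variable {φ : ℝ} {v vd : V3} {a : Bool} {k : ℕ} {μ ν : ℂ} {th ps h hd : ℝ} {P N Pd Nd : Mt}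
  {K1 K2 S0 S1 : Mt}

/-- THE TAIL FROM TESTS AT COMMON VERTICES: the range of `(h² - 1) / r` by its ends -/
theorem gi_tail8
    (H : SPC (rfJ 1 v * sDm φ a k) (rfd 1 0 v vd * sDm φ a k) μ ν th ps h hd P N Pd Nd)
    (hv : brJ 1 v v = 2) (hvd : (brJ 1 vd v).re = 0) (hμ : μ ≠ 0) (hh : 1 ≤ h)
    (hd0 : 0 ≤ hd) {n : ℕ} (hn : 2 ≤ n) {lo hi la : ℝ} {z : ℂ} (h1 : lo ≤ chO h n)
    (h2 : chO h n ≤ hi) (h3 : 2 * ‖chQ μ ν h n‖ ^ 2 ≤ ‖z‖ ^ 2) (hla : 0 < la) (hs : la ≤ n)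
    (h4 : 2 * ‖(n : ℂ) * chQ μ ν h n‖ ^ 2 ≤ ‖(la : ℂ) * z‖ ^ 2) {Nc Qc Ndc Qdc R2 : Mt}
    (eN : N * rfJ 1 v = Nc) (eQ : (1 - P) * rfJ 1 v = Qc) (eNd : Nd * rfJ 1 v = Ndc)
    (eQd : -Pd * rfJ 1 v = Qdc) (eR : hR v vd S1 + (2 : ℂ) • hH v vd = R2)
    (A1 : T4 K1 K2 (aF lo (rfJ 1 v) Nc Qc) (Nc + (chR h n : ℂ) • (rfJ 1 v - Qc)) Qc z)
    (A2 : T4 K1 K2 (aF hi (rfJ 1 v) Nc Qc) (Nc + (chR h n : ℂ) • (rfJ 1 v - Qc)) Qc z)
    (B1 : T8 K1 K2 (((hd / 4 : ℝ) : ℂ) • aF lo (rfJ 1 v) Nc Qc +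
      bF (chR h n) h hd (ps - th) (chQ μ ν h n) 0 (hL v vd S0) R2 (rfJ 1 v) Nc Qc
        Ndc Qdc) ((Complex.I * ((chR h n ^ 2 * (ps - th) : ℝ) : ℂ)) • Qc)
        (Nc + (chR h n : ℂ) • (rfJ 1 v - Qc)) Qc z la)
    (B2 : T8 K1 K2 (((hd / 4 : ℝ) : ℂ) • aF hi (rfJ 1 v) Nc Qc +
      bF (chR h n) h hd (ps - th) (chQ μ ν h n) 0 (hL v vd S0) R2 (rfJ 1 v) Nc Qc
        Ndc Qdc) ((Complex.I * ((chR h n ^ 2 * (ps - th) : ℝ) : ℂ)) • Qc)
        (Nc + (chR h n : ℂ) • (rfJ 1 v - Qc)) Qc z la) :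
    NT (cK v K1) (cK v K2) (nX v vd (nM φ v a k (n - 1)) (nMd φ v vd a k (n - 1)) S0 S1)
      (nM φ v a k (n - 1)) := by
  subst eN eQ eNd eQd eR
  refine gi_at H hv hvd hμ hh hd0 hn ?_ ?_
  · rw [rT_c, rX_c]
    exact NT_seg h1 h2 (A1.out h3) (A2.out h3)
  · rw [rT_c, rB_c hv hvd]
    have h4' : 2 * ‖((n : ℝ) : ℂ) * chQ μ ν h n‖ ^ 2 ≤ ‖(la : ℂ) * z‖ ^ 2 := by
      rw [Complex.ofReal_natCast]; exact h4
    have k1 := B1.out hla hs h4'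
    have k2 := B2.out hla hs h4'
    rw [Complex.ofReal_natCast] at k1 k2
    rw [add_assoc, ← bF_eta] at k1 k2
    unfold aF at k1 k2 ⊢
    have key := NT_seg (X := ((hd / 4 : ℝ) : ℂ) • (N * rfJ 1 v) + bF (chR h n) h hd (ps - th)
      (chQ μ ν h n) (n * chQ μ ν h n) (hL v vd S0) (hR v vd S1 + (2 : ℂ) • hH v vd) (rfJ 1 v)
      (N * rfJ 1 v) ((1 - P) * rfJ 1 v) (Nd * rfJ 1 v) (-Pd * rfJ 1 v))
      (U := ((hd / 4 : ℝ) : ℂ) • (rfJ 1 v - (1 - P) * rfJ 1 v)) h1 h2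
      (k1.congr (by module) rfl) (k2.congr (by module) rfl)
    exact key.congr (by module) rfl

/-- THE TAIL FROM TESTS AT COMMON VERTICES: the directions multiplied by `r` -/
theorem gi_tailE8
    (H : SPC (rfJ 1 v * sDm φ a k) (rfd 1 0 v vd * sDm φ a k) μ ν th ps h hd P N Pd Nd)
    (hv : brJ 1 v v = 2) (hvd : (brJ 1 vd v).re = 0) (hμ : μ ≠ 0) (hh : 1 ≤ h)
    (hd0 : 0 ≤ hd) {n : ℕ} (hn : 2 ≤ n) {la : ℝ} {z : ℂ} (h3 : 2 * ‖chQ μ ν h n‖ ^ 2 ≤ ‖z‖ ^ 2)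
    (hla : 0 < la) (hs : la ≤ n)
    (h4 : 2 * ‖(n : ℂ) * chQ μ ν h n‖ ^ 2 ≤ ‖(la : ℂ) * z‖ ^ 2)
    {Nc Qc Ndc Qdc R2 : Mt}
    (eN : N * rfJ 1 v = Nc) (eQ : (1 - P) * rfJ 1 v = Qc) (eNd : Nd * rfJ 1 v = Ndc)
    (eQd : -Pd * rfJ 1 v = Qdc) (eR : hR v vd S1 + (2 : ℂ) • hH v vd = R2)
    (A1 : T4 K1 K2 (aE (chR h n) h (rfJ 1 v) Nc Qc) (Nc + (chR h n : ℂ) • (rfJ 1 v - Qc)) Qc z)
    (B1 : T8 K1 K2 (((hd / 4 : ℝ) : ℂ) • aE (chR h n) h (rfJ 1 v) Nc Qc + (chR h n : ℂ) •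
      bF (chR h n) h hd (ps - th) (chQ μ ν h n) 0 (hL v vd S0) R2 (rfJ 1 v) Nc Qc
        Ndc Qdc) ((Complex.I * ((chR h n ^ 3 * (ps - th) : ℝ) : ℂ)) • Qc)
        (Nc + (chR h n : ℂ) • (rfJ 1 v - Qc)) Qc z la) :
    NT (cK v K1) (cK v K2) (nX v vd (nM φ v a k (n - 1)) (nMd φ v vd a k (n - 1)) S0 S1)
      (nM φ v a k (n - 1)) := by
  subst eN eQ eNd eQd eR
  have hn1 : 1 ≤ n := by omega
  have hr := chR_pos hh hn1
  have hom : aE (chR h n) h (rfJ 1 v) (N * rfJ 1 v) ((1 - P) * rfJ 1 v) =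
      (chR h n : ℂ) • aF (chO h n) (rfJ 1 v) (N * rfJ 1 v) ((1 - P) * rfJ 1 v) := by
    have e : ((h ^ 2 - 1 : ℝ) : ℂ) = (chR h n : ℂ) * (chO h n : ℂ) := by
      rw [← Complex.ofReal_mul, mul_comm (chR h n), chO_mul hh hn1]
    rw [aE, aF, e, smul_add, smul_smul]
  have h4' : 2 * ‖((n : ℝ) : ℂ) * chQ μ ν h n‖ ^ 2 ≤ ‖(la : ℂ) * z‖ ^ 2 := by
    rw [Complex.ofReal_natCast]; exact h4
  have k1 := B1.out hla hs h4'
  rw [Complex.ofReal_natCast] at k1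
  rw [hom] at A1 k1
  refine gi_at H hv hvd hμ hh hd0 hn ?_ ?_
  · rw [rT_c, rX_c]
    exact NT.of_smulr hr (A1.out h3)
  · rw [rT_c, rB_c hv hvd, bF_eta]
    refine NT.of_smulr hr (k1.congr ?_ rfl)
    push_cast
    module

end

end Pool.Agent.Helper62.NBE
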