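import Pool.Agent.Helper62.C75.NBW
import Pool.Agent.Helper62.C75.NBX
import Pool.Agent.Helper62.TM.NBE
import Pool.Agent.Helper21.TM.M7D

/-!
Taylor model machine (MP_c75db0, star frame), row (C) of M7, KERNEL SIDE: the items of the runs of
a rotation of length 2 for any machine (`A` numbers of the box, `nx A` with one more parameter).
-/

set_option autoImplicit false
noncomputable section
namespace Pool.Agent.Helper91.TMK.NBW

open Pool.Agent.Helper86.C75 (Z)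
open Pool.Agent.Helper86.CX (Cx andB)
open Pool.Agent.Helper86.CT (N3 Alg Mo KM mk cst addM subM mulM conjM invM invOK nx)
open Pool.Agent.Helper17.K9 (V9)
open Pool.Agent.Helper62.TVM (cstC zeM negM hfM V3m cstV addV subV negV smV mulV oV)
open Pool.Agent.Helper62.LBM (onM powM erM)
open Pool.Agent.Helper62.NBM (SN ND dbM)
open Pool.Agent.Helper62.NBP (NP cjN nuM bM bdM)
open Pool.Agent.Helper62.NBT (npA)
open Pool.Agent.Helper62.NBD (BP GB)
open Pool.Agent.Helper62.NBW (nth pcB ggM adK)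
open Pool.Agent.Helper26.XH (FH)
open Pool.Agent.Helper26.IT (upK)
open Pool.Agent.Helper26.SF (Sf sfOK sfM)
open Pool.Agent.Helper91.BX (crM upM upV)
open Pool.Agent.Helper82.TST (H6 jFC Fr frA frB frK frN smK cg9)
open Pool.Agent.Helper82.FRD (frOK)
open Pool.Agent.Helper91.TMK.SW
open Pool.Agent.Helper91.TMK.ITF (GT)
open Pool.Agent.Helper21.SW (Mu)

variable {α κ γ : Type}

/-! ### the letter -/

/-- models of `N c`, `(1 - P) c`, `N' c`, `- P' c`, `c - (1 - P) c`, numbers -/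
structure LC (α : Type) where
  N : V9 α
  Q : V9 α
  Nd : V9 α
  Qd : V9 α
  C : V9 α
  s : SN α

def lc2 (A : Alg α) (s : SN α) (c N Q Nd Qd : V9 α) : LC α := ⟨N, Q, Nd, Qd, subV A c Q, s⟩
def lc1 (A : Alg α) (s : SN α) (c : V9 α) (X : NP α) : LC α :=
  lc2 A s c (mulV A X.N c) (mulV A X.Q c) (mulV A X.Nd c) (mulV A X.Qd c)
/-- the numbers of the letter `(a, 2)` -/
def sA (A : Alg α) (s : SN α) (a : Bool) : SN α :=
  Bool.rec (motive := fun _ => SN α) s (cjN A s) a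
/-- THE MODELS OF THE LETTER `(a, 2)`: `E` model of `e` -/
def lcM (A : Alg α) (s : SN α) (E : Mo α) (F : FH α) (a : Bool) : LC α :=
  lc1 A (sA A s a) F.c (npA A s E F.v F.vd a)
/-- models of `c N c`, `c (1 - P) c`, `c (c - (1 - P) c)` -/
structure LI (α : Type) where
  n : V9 α
  q : V9 α
  e : V9 α
def liM (A : Alg α) (c : V9 α) (K : LC α) : LI α := ⟨mulV A c K.N, mulV A c K.Q, mulV A c K.C⟩

/-! ### exact runs -/

structure CH (α : Type) where
  S : Mo α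
  C : Mo α
  D : Mo α

/-- `h² - 1` -/
def g1M (A : Alg α) (h : Mo α) : Mo α := subM A (mulM A h h) (onM A)
def stC (A : Alg α) (h g1 : Mo α) (n : Nat) (x : CH α) : CH α :=
  ⟨addM A x.C (mulM A h x.S), addM A (mulM A h x.C) (mulM A g1 x.S),
    addM A (mulM A (cst A (Nat.mul (Nat.succ n) (nat_lit 281474976710656)) (nat_lit 0)) x.S)
      (mulM A h x.D)⟩
/-- `chS h n`, `chC h n`, `chD h n` -/
def chN (A : Alg α) (h g1 : Mo α) (n : Nat) : CH α :=
  Nat.rec (motive := fun _ => CH α) ⟨zeM A, onM A, zeM A⟩ (fun m x => stC A h g1 m x) n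

/-- `ν / μ = - conj μ ^ 3` -/
def lamM (A : Alg α) (s : SN α) : Mo α := mulM A s.mc (nuM A s)

/-- `S N + C C' + lam Q` -/
def xt1 (A : Alg α) (N C Q : V9 α) (x : CH α) (lam : Mo α) : V9 α :=
  addV A (addV A (smV A x.S N) (smV A x.C C)) (smV A lam Q)
/-- THE RUN OF LENGTH `n` -/
def xtM (A : Alg α) (K : LC α) (n : Nat) : V9 α :=
  xt1 A K.N K.C K.Q (chN A K.s.h (g1M A K.s.h) n) (powM A (lamM A K.s) n)
def xiM (A : Alg α) (K : LC α) (I : LI α) (n : Nat) : V9 α :=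
  xt1 A I.n I.e I.q (chN A K.s.h (g1M A K.s.h) n) (powM A (lamM A K.s) n)

/-- `- 3 x` -/
def m3M (A : Alg α) (x : Mo α) : Mo α := negM A (addM A x (dbM A x))
def xd1 (A : Alg α) (K : LC α) (n : Nat) (x : CH α) (lam : Mo α) : V9 α :=
  addV A (addV A (addV A (smV A (mulM A K.s.hd x.D) K.N)
    (smV A (mulM A K.s.hd (mulM A (cst A (Nat.mul n (nat_lit 281474976710656)) (nat_lit 0))
      x.S)) K.C))
    (addV A (smV A x.S K.Nd) (smV A (subM A lam x.C) K.Qd)))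
    (smV A (mulM A (m3M A K.s.it) (mulM A (cst A (Nat.mul n (nat_lit 281474976710656))
      (nat_lit 0)) lam)) K.Q)
def xdM (A : Alg α) (K : LC α) (n : Nat) : V9 α :=
  xd1 A K n (chN A K.s.h (g1M A K.s.h) n) (powM A (lamM A K.s) n)

/-- `R + 2 H` -/
def r2M (A : Alg α) (F : FH α) (Sr : V9 α) : V9 α := addV A Sr (addV A F.h F.h)

def bx2 (A : Alg α) (T : TK α κ γ) (F : FH α) (k1 k2 : κ) (Sl Sr : V9 α) (g : γ)
    (M D : V9 α) : Bool :=
  T.t3 k1 k2 g M (addV A D (ggM A M Sl (r2M A F Sr)))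
/-- kind 6 -/
def bxK (A : Alg α) (T : TK α κ γ) (F : FH α) (K : LC α) (n : Nat) (k1 k2 : κ) (Sl Sr : V9 α)
    (g : γ) : Bool :=
  andB (Nat.ble (nat_lit 1) n) (bx2 A T F k1 k2 Sl Sr g (xtM A K n) (xdM A K n))

/-! ### the tail -/

def rrM (A : Alg α) (b : BP) : Mo (N3 α) := crM A b.t0 b.t1
/-- the vertex and its multiple by `i` times a matrix -/
def z0M (A : Alg α) (Q : V9 α) (b : BP) : V9 (N3 α) :=
  upV (smV A (cstC A ⟨Z.p b.zr, Z.p b.zi⟩ (nat_lit 0)) Q)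
def z1M (A : Alg α) (Q : V9 α) (b : BP) : V9 (N3 α) :=
  upV (smV A (cstC A ⟨Z.m b.zi, Z.p b.zr⟩ (nat_lit 0)) Q)
def mM (A : Alg α) (N C : V9 α) (r : Mo (N3 α)) : V9 (N3 α) :=
  addV (nx A) (upV N) (smV (nx A) r (upV C))
def aK (A : Alg α) (K : LC α) (k : Nat) : V9 (N3 α) :=
  upV (addV A K.N (smV A (mulM A (cst A k (nat_lit 0)) (g1M A K.s.h)) K.C))
def aHi (A : Alg α) (K : LC α) (b : BP) (r : Mo (N3 α)) : V9 (N3 α) :=
  cond (Nat.beq b.kb (nat_lit 0)) (mM A K.N K.C r) (aK A K b.kb)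
def aEx (A : Alg α) (K : LC α) (r : Mo (N3 α)) : V9 (N3 α) :=
  addV (nx A) (smV (nx A) r (upV K.N)) (upV (smV A (g1M A K.s.h) K.C))
def rhoM (A : Alg α) (b : BP) : Mo α := cst A (nat_lit 0) b.de
def eeM (A : Alg α) (K : LC α) (b : BP) : V9 α := addV A K.Nd (smV A (rhoM A b) K.Qd)
/-- `la` times the vertex, its multiple by `i`, times `- 3 i θ Q` -/
def w0M (A : Alg α) (K : LC α) (b : BP) : V9 (N3 α) :=
  upV (smV A (cstC A ⟨Z.p (Nat.mul b.la b.zr), Z.p (Nat.mul b.la b.zi)⟩ (nat_lit 0))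
    (smV A (m3M A K.s.it) K.Q))
def w1M (A : Alg α) (K : LC α) (b : BP) : V9 (N3 α) :=
  upV (smV A (cstC A ⟨Z.m (Nat.mul b.la b.zi), Z.p (Nat.mul b.la b.zr)⟩ (nat_lit 0))
    (smV A (m3M A K.s.it) K.Q))
def bbM (A : Alg α) (K : LC α) (b : BP) (r : Mo (N3 α)) : V9 (N3 α) :=
  smV (nx A) r (addV (nx A) (upV (smV A (mulM A K.s.h K.s.hd) K.C))
    (smV (nx A) r (subV (nx A) (upV (eeM A K b)) (smV (nx A) r (upV K.Qd)))))
def ttM (A : Alg α) (K : LC α) (b : BP) (r : Mo (N3 α)) : V9 (N3 α) :=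
  addV (nx A) (upV (addV A K.N (smV A (rhoM A b) K.Q))) (smV (nx A) r (upV K.C))
def h4M (A : Alg α) (K : LC α) : Mo (N3 α) := upM (hfM A (hfM A K.s.hd))
/-- `hd / 4 A + B` -/
def cbM (A : Alg α) (K : LC α) (X B : V9 (N3 α)) : V9 (N3 α) :=
  addV (nx A) (smV (nx A) (h4M A K) X) B

/-- four tests -/
def q4T (A : Alg α) (T : TK α κ γ) (k1 k2 : κ) (gs : List γ) (n : Nat)
    (M U V X : V9 (N3 α)) : Bool :=
  andB (andB (nth gs (fun g => T.t4 k1 k2 g (addV (nx A) M U) X) n)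
      (nth gs (fun g => T.t4 k1 k2 g (addV (nx A) M V) X) (Nat.add n (nat_lit 1))))
    (andB (nth gs (fun g => T.t4 k1 k2 g (subV (nx A) M U) X) (Nat.add n (nat_lit 2)))
      (nth gs (fun g => T.t4 k1 k2 g (subV (nx A) M V) X) (Nat.add n (nat_lit 3))))

/-- the four directions -/
def h4T (T : TK α κ γ) (k1 k2 : κ) (gs : List γ) (n : Nat)
    (M0 M1 M2 M3 X0 X1 X2 X3 : V9 (N3 α)) : Bool :=
  andB (andB (nth gs (fun g => T.t4 k1 k2 g M0 X0) n)
      (nth gs (fun g => T.t4 k1 k2 g M1 X1) (Nat.add n (nat_lit 1))))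
    (andB (nth gs (fun g => T.t4 k1 k2 g M2 X2) (Nat.add n (nat_lit 2)))
      (nth gs (fun g => T.t4 k1 k2 g M3 X3) (Nat.add n (nat_lit 3))))
/-- eight tests: common vertices of `ρ` and `n ρ`, and `0` and `n ρ` -/
def q8T (A : Alg α) (T : TK α κ γ) (k1 k2 : κ) (gs : List γ) (n : Nat)
    (M U V X W0 W1 : V9 (N3 α)) : Bool :=
  andB (h4T T k1 k2 gs n (addV (nx A) M U) (addV (nx A) M V) (subV (nx A) M U)
      (subV (nx A) M V) (addV (nx A) X W0) (addV (nx A) X W1) (subV (nx A) X W0)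
      (subV (nx A) X W1))
    (h4T T k1 k2 gs (Nat.add n (nat_lit 4)) M M M M (addV (nx A) X W0) (addV (nx A) X W1)
      (subV (nx A) X W0) (subV (nx A) X W1))

/-- twenty four tests: first direction at the ends, second direction at the ends -/
def btF (A : Alg α) (T : TK α κ γ) (k1 k2 : κ) (gs : List γ)
    (M U V A1 A2 B1 B2 G W0 W1 : V9 (N3 α)) : Bool :=
  andB (andB (q4T A T k1 k2 gs (nat_lit 0) M U V A1) (q4T A T k1 k2 gs (nat_lit 4) M U V A2))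
    (andB (q8T A T k1 k2 gs (nat_lit 8) M U V (addV (nx A) B1 G) W0 W1)
      (q8T A T k1 k2 gs (nat_lit 16) M U V (addV (nx A) B2 G) W0 W1))
/-- twelve tests -/
def btE (A : Alg α) (T : TK α κ γ) (k1 k2 : κ) (gs : List γ) (M U V A1 B1 G W0 W1 : V9 (N3 α)) :
    Bool :=
  andB (q4T A T k1 k2 gs (nat_lit 0) M U V A1)
    (q8T A T k1 k2 gs (nat_lit 4) M U V (addV (nx A) B1 G) W0 W1)
def bt1 (A : Alg α) (T : TK α κ γ) (F : FH α) (K : LC α) (k1 k2 : κ) (Sl Sr : V9 α)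
    (gs : List γ) (b : BP) (r r2 : Mo (N3 α)) (M U V tt bb : V9 (N3 α)) : Bool :=
  cond b.ex
    (btE A T k1 k2 gs M U V (aEx A K r) (cbM A K (aEx A K r) (smV (nx A) r bb))
      (ggM (nx A) (smV (nx A) (mulM (nx A) r r2) tt) (upV Sl) (upV (r2M A F Sr)))
      (smV (nx A) (mulM (nx A) r r2) (w0M A K b)) (smV (nx A) (mulM (nx A) r r2) (w1M A K b)))
    (btF A T k1 k2 gs M U V (aK A K b.ka) (aHi A K b r) (cbM A K (aK A K b.ka) bb)
      (cbM A K (aHi A K b r) bb)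
      (ggM (nx A) (smV (nx A) r2 tt) (upV Sl) (upV (r2M A F Sr)))
      (smV (nx A) r2 (w0M A K b)) (smV (nx A) r2 (w1M A K b)))
/-- `1 ≤ la`, `2 et² ≤ la² |z|²` -/
def laB (b : BP) : Bool :=
  andB (Nat.ble (nat_lit 1) b.la)
    (Nat.ble (Nat.mul (nat_lit 2) (Nat.mul b.et b.et)) (Nat.mul (Nat.mul b.la b.la)
      (Nat.add (Nat.mul b.zr b.zr) (Nat.mul b.zi b.zi))))
/-- kind 7, a piece -/
def bt0 (A : Alg α) (T : TK α κ γ) (F : FH α) (K : LC α) (k1 k2 : κ) (Sl Sr : V9 α)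
    (gs : List γ) (b : BP) (r : Mo (N3 α)) : Bool :=
  bt1 A T F K k1 k2 Sl Sr gs b r (mulM (nx A) r r) (mM A K.N K.C r) (z0M A K.Q b) (z1M A K.Q b)
    (ttM A K b r) (bbM A K b r)
def btK (A : Alg α) (T : TK α κ γ) (F : FH α) (K : LC α) (bp : List BP) (i : Nat) (k1 k2 : κ)
    (Sl Sr : V9 α) (gs : List γ) : Bool :=
  nth bp (fun b => andB (andB (laB b) (pcB b)) (bt0 A T F K k1 k2 Sl Sr gs b (rrM A b))) i

/-! ### invariance, in frames, with a scale -/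

/-- the test with an additional form `W` -/
def incW (A : Alg α) (G : GT α) (f : Fr) (m : Mu) (R : Mo α) (V : V9 α) (W Kg Kf : KM α) : Bool :=
  G (nat_lit 0) m.l (jFC m.m f.c) (smK A R (adK A (cg9 A V Kg) W)) Kf
/-- an exact run -/
def bxI (A : Alg α) (G3 : GT α) (K : LC α) (I : LI α) (n : Nat) (f g : Fr) (m : Mu) (R : Mo α)
    (Kf Kg : KM α) : Bool :=
  andB (Nat.ble (nat_lit 1) n)
    (Pool.Agent.Helper91.TMK.TST.incV A G3 f m.l m.m R (frN A f g (xiM A K I n)) Kg Kf)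
/-- `r² - (h² - 1) - |z|²` -/
def e1M (A : Alg α) (K : LC α) (b : BP) (r : Mo (N3 α)) : Mo (N3 α) :=
  subM (nx A) (mulM (nx A) r r) (upM (addM A (g1M A K.s.h) (addM A
    (mulM A (cst A b.zr (nat_lit 0)) (cst A b.zr (nat_lit 0)))
    (mulM A (cst A b.zi (nat_lit 0)) (cst A b.zi (nat_lit 0))))))
/-- four vertices -/
def bi1 (A : Alg α) (G4 : GT (N3 α)) (f : Fr) (m : Mu) (R : Mo (N3 α)) (M U V : V9 (N3 α))
    (W Kg Kf : KM (N3 α)) : Bool :=
  andB (andB (incW (nx A) G4 f m R (addV (nx A) M U) W Kg Kf)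
      (incW (nx A) G4 f m R (addV (nx A) M V) W Kg Kf))
    (andB (incW (nx A) G4 f m R (subV (nx A) M U) W Kg Kf)
      (incW (nx A) G4 f m R (subV (nx A) M V) W Kg Kf))
/-- `n q e`: the matrices of the letter in the frames -/
def bi0 (A : Alg α) (G4 : GT (N3 α)) (K : LC α) (f : Fr) (m : Mu) (R : Mo α) (n q e : V9 α)
    (Kf Kg : KM α) (b : BP) (r : Mo (N3 α)) : Bool :=
  bi1 A G4 f m (upM R) (mM A n e r) (z0M A q b) (z1M A q b)
    (smK (nx A) (e1M A K b r) (upK (cg9 A q Kg))) (upK Kg) (upK Kf)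
def btI (A : Alg α) (G4 : GT (N3 α)) (K : LC α) (I : LI α) (bp : List BP) (i : Nat) (f g : Fr)
    (m : Mu) (R : Mo α) (Kf Kg : KM α) : Bool :=
  nth bp (fun b => andB (pcB b) (bi0 A G4 K f m R (frN A f g I.n) (frN A f g I.q)
    (frN A f g I.e) Kf Kg b (rrM A b))) i

end Pool.Agent.Helper91.TMK.NBW
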