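import Pool.Agent.Helper62.TM.NBK

/-!
Taylor model machine (MP_c75db0, star frame), row (C) of M7, REAL SIDE: the items of the runs of a
rotation of length 2 against `sat`, `sati`.
-/

set_option autoImplicit false
noncomputable section
namespace Pool.Agent.Helper91.TMK.NBW

open Matrix
open Pool.Agent.Helper90.KMO (UU UU_pos UUc_ne cz zv zv_p)
open Pool.Agent.Helper86.C75 (Z)
open Pool.Agent.Helper86.CX (Cx andB)
open Pool.Agent.Helper86.CT (N3 Alg Mo KM mk cst addM subM mulM conjM invM invOK nx)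
open Pool.Agent.Helper17.K9 (V9)
open Pool.Agent.Helper62.TVM (cstC zeM negM hfM V3m cstV addV subV negV smV mulV oV)
open Pool.Agent.Helper62.LBM (onM powM erM)
open Pool.Agent.Helper62.NBM (SN ND dbM)
open Pool.Agent.Helper62.NBP (NP cjN nuM bM bdM)
open Pool.Agent.Helper62.NBD (BP GB)
open Pool.Agent.Helper62.NBV
open Pool.Agent.Helper62.NBE (T8 gi_tail8 gi_tailE8)
open Pool.Agent.Helper62.NBW (nth nth_t pcB ggM adK zB zB_cz IzB_cz z_sq pc_z pc_a mu_norm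
  nu_norm mu_ne)
open Pool.Agent.Helper26.XH (FH hL hR hH)
open Pool.Agent.Helper26.IT (upK)
open Pool.Agent.Helper51.FR (andB_t')
open Pool.Agent.Helper91.BX (crM upM upV tu)
open Pool.Agent.Helper82.TST (H6 jFC jFC_hq Fr frA frB frK frN frR frS smK cg9 hr_cong hr_smulv
  C9M C9M_ad adC dtC nzC nzC_ok hq)
open Pool.Agent.Helper82.FRD (frOK IN_fr)
open Pool.Agent.Helper26.SF (hr_smulM)
open Pool.Agent.Helper91.TMK.LBM (TOK_on TOK_pow)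
open Pool.Agent.Helper91.TMK.XH (HOK)
open Pool.Agent.Helper91.TMK.FR (cst_nat)
open Pool.Agent.Helper91.TMK.IT (nA)
open Pool.Agent.Helper91.TMK.TST
open Pool.Agent.Helper91.TMK.SW
open Pool.Agent.Helper91.TMK.ITF (GT kU)
open Pool.Agent.Helper6.MONO (V3)
open Pool.Agent.Helper6.MONO.W2 (Mt J1 NT NZ IN rfJ rfd nX nMd Sy sDm phi Prt RPar sat sati Pd cs
  brJ hr SPC chS chC chD chR chO chQ chS_zero chC_zero chD_zero chS_succ chC_succ chD_succ chR_pos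
  chO_mul chO_nn chO_le chQ_norm rfJ_sqM chR_sq nsq rT)
open Pool.Agent.Helper21.SW (Mu cK)

/-- the run matrix -/
abbrev nRM := @Pool.Agent.Helper6.MONO.W2.nM

variable {α κ γ : Type}

/-! ### the letter -/

/-- THE MODELS ARE RIGHT -/
structure TLC (lf : Mch α) (t : ℕ → ℝ) (v : V3) (μ : ℂ) (th h hd : ℝ) (P N Pd Nd : Mt)
    (K : LC α) : Prop where
  N : TV 3 lf t (N * rfJ 1 v) K.N
  Q : TV 3 lf t ((1 - P) * rfJ 1 v) K.Q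
  Nd : TV 3 lf t (Nd * rfJ 1 v) K.Nd
  Qd : TV 3 lf t (-Pd * rfJ 1 v) K.Qd
  C : TV 3 lf t (rfJ 1 v - (1 - P) * rfJ 1 v) K.C
  mc : TOK 3 lf t (star μ) K.s.mc
  m2 : TOK 3 lf t (μ ^ 2) K.s.m2
  h : TOK 3 lf t ((h : ℝ) : ℂ) K.s.h
  hd : TOK 3 lf t ((hd : ℝ) : ℂ) K.s.hd
  it : TOK 3 lf t (Complex.I * ((th : ℝ) : ℂ)) K.s.it

/-- the matrices of the invariance -/
structure TLI (lf : Mch α) (t : ℕ → ℝ) (v : V3) (P N : Mt) (I : LI α) : Prop where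
  n : TV 3 lf t (rfJ 1 v * (N * rfJ 1 v)) I.n
  q : TV 3 lf t (rfJ 1 v * ((1 - P) * rfJ 1 v)) I.q
  e : TV 3 lf t (rfJ 1 v * (rfJ 1 v - (1 - P) * rfJ 1 v)) I.e

section
variable {lf : Mch α} {A : Alg α} {t : ℕ → ℝ} {v vd : V3} {μ : ℂ} {th h hd : ℝ}
  {P N Pd Nd : Mt} {K : LC α} {I : LI α}

theorem TLI_mk (hA : AOK 3 lf A) (hP : PT 3 t) {c : V9 α} (hc : TV 3 lf t (rfJ 1 v) c)
    (hK : TLC lf t v μ th h hd P N Pd Nd K) : TLI lf t v P N (liM A c K) :=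
  ⟨hc.mul hA hP hK.N, hc.mul hA hP hK.Q, hc.mul hA hP hK.C⟩

/-! ### exact runs -/

theorem cst_n (hA : AOK 3 lf A) (hP : PT 3 t) (n : ℕ) : TOK 3 lf t ((n : ℝ) : ℂ)
    (cst A (Nat.mul n (nat_lit 281474976710656)) (nat_lit 0)) := by
  refine TOK.cst' hA hP ?_
  have e : (((Nat.mul n (nat_lit 281474976710656) : ℕ)) : ℂ) = (n : ℂ) * UU := by
    show ((n * 281474976710656 : ℕ) : ℂ) = _
    unfold UU
    push_cast
    norm_num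
  rw [e]
  push_cast
  ring

theorem TOK_db (hA : AOK 3 lf A) {f : ℂ} {F : Mo α} (hf : TOK 3 lf t f F) :
    TOK 3 lf t (2 * f) (dbM A F) := tc (hf.add hA hf) (by ring)

theorem TOK_g1 (hA : AOK 3 lf A) (hP : PT 3 t) {H : Mo α} (hh : TOK 3 lf t ((h : ℝ) : ℂ) H) :
    TOK 3 lf t ((h ^ 2 - 1 : ℝ) : ℂ) (g1M A H) :=
  tc ((hh.mul hA hP hh).sub hA (TOK_on hA hP)) (by push_cast; ring)

structure TCH (lf : Mch α) (t : ℕ → ℝ) (h : ℝ) (n : ℕ) (x : CH α) : Prop where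
  S : TOK 3 lf t ((chS h n : ℝ) : ℂ) x.S
  C : TOK 3 lf t ((chC h n : ℝ) : ℂ) x.C
  D : TOK 3 lf t ((chD h n : ℝ) : ℂ) x.D

theorem TCH_all (hA : AOK 3 lf A) (hP : PT 3 t) {H G : Mo α} (hh : TOK 3 lf t ((h : ℝ) : ℂ) H)
    (hg : TOK 3 lf t ((h ^ 2 - 1 : ℝ) : ℂ) G) (n : ℕ) : TCH lf t h n (chN A H G n) := by
  induction n with
  | zero =>
    refine ⟨tc (TOK_ze hA hP) ?_, tc (TOK_on hA hP) ?_, tc (TOK_ze hA hP) ?_⟩
    · rw [chS_zero]; simp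
    · rw [chC_zero]; simp
    · rw [chD_zero]; simp
  | succ n ih =>
    refine ⟨tc (ih.C.add hA (hh.mul hA hP ih.S)) ?_,
      tc ((hh.mul hA hP ih.C).add hA (hg.mul hA hP ih.S)) ?_,
      tc (((cst_n hA hP (n + 1)).mul hA hP ih.S).add hA (hh.mul hA hP ih.D)) ?_⟩
    · rw [chS_succ]; push_cast; ring
    · rw [chC_succ]; push_cast; ring
    · rw [chD_succ]; push_cast; ring

theorem TOK_lam (hA : AOK 3 lf A) (hP : PT 3 t) (hμ : star μ * μ = 1)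
    (H : TLC lf t v μ th h hd P N Pd Nd K) :
    TOK 3 lf t (-star μ ^ 2 / μ) (lamM A K.s) := by
  have h1 : TOK 3 lf t (-(star μ) ^ 2) (nuM A K.s) :=
    TOK_neg hA hP (tc (H.m2.conj hA) (star_pow μ 2))
  refine tc (H.mc.mul hA hP h1) ?_
  have h0 : μ ≠ 0 := by
    intro h0
    rw [h0, mul_zero] at hμ
    exact zero_ne_one hμ
  rw [eq_div_iff h0]
  linear_combination (-star μ ^ 2) * hμ

theorem TV_xt (hA : AOK 3 lf A) (hP : PT 3 t) (hμ : star μ * μ = 1)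
    (H : TLC lf t v μ th h hd P N Pd Nd K) (n : ℕ) :
    TV 3 lf t (xT (chS h n) (chC h n) ((-star μ ^ 2 / μ) ^ n) P N * rfJ 1 v) (xtM A K n) := by
  have hx := TCH_all hA hP H.h (TOK_g1 hA hP H.h) n
  have hl := TOK_pow hA hP (TOK_lam hA hP hμ H) n
  refine (((TV.smul hA hP hx.S H.N).add hA (TV.smul hA hP hx.C H.C)).add hA
    (TV.smul hA hP hl H.Q)).congr ?_
  rw [xT]
  simp only [add_mul, sub_mul, smul_mul_assoc, one_mul]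
  module

theorem TV_xi (hA : AOK 3 lf A) (hP : PT 3 t) (hμ : star μ * μ = 1)
    (H : TLC lf t v μ th h hd P N Pd Nd K) (hI : TLI lf t v P N I) (n : ℕ) :
    TV 3 lf t (rfJ 1 v * (xT (chS h n) (chC h n) ((-star μ ^ 2 / μ) ^ n) P N * rfJ 1 v))
      (xiM A K I n) := by
  have hx := TCH_all hA hP H.h (TOK_g1 hA hP H.h) n
  have hl := TOK_pow hA hP (TOK_lam hA hP hμ H) n
  refine (((TV.smul hA hP hx.S hI.n).add hA (TV.smul hA hP hx.C hI.e)).add hA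
    (TV.smul hA hP hl hI.q)).congr ?_
  rw [xT]
  simp only [add_mul, sub_mul, mul_add, mul_sub, smul_mul_assoc, mul_smul_comm, one_mul]
  module

theorem TV_xd (hA : AOK 3 lf A) (hP : PT 3 t) (hμ : star μ * μ = 1)
    (H : TLC lf t v μ th h hd P N Pd Nd K) (n : ℕ) :
    TV 3 lf t (xD n (chS h n) (chC h n) (chD h n) hd (-2 * th - th) ((-star μ ^ 2 / μ) ^ n) P N
      Pd Nd * rfJ 1 v) (xdM A K n) := by
  have hx := TCH_all hA hP H.h (TOK_g1 hA hP H.h) n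
  have hl := TOK_pow hA hP (TOK_lam hA hP hμ H) n
  have hn := cst_n hA hP n
  have h3 : TOK 3 lf t (-(3 * (Complex.I * (th : ℂ)))) (m3M A K.s.it) :=
    tc (TOK_neg hA hP (H.it.add hA (TOK_db hA H.it))) (by ring)
  refine ((((TV.smul hA hP (H.hd.mul hA hP hx.D) H.N).add hA
    (TV.smul hA hP (H.hd.mul hA hP (hn.mul hA hP hx.S)) H.C)).add hA
    ((TV.smul hA hP hx.S H.Nd).add hA (TV.smul hA hP (hl.sub hA hx.C) H.Qd))).add hA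
    (TV.smul hA hP (h3.mul hA hP (hn.mul hA hP hl)) H.Q)).congr ?_
  generalize (-star μ ^ 2 / μ) ^ n = lam
  rw [xD]
  simp only [add_mul, sub_mul, smul_mul_assoc, one_mul, neg_mul, smul_neg]
  push_cast
  module

/-- `R + 2 H` -/
theorem TV_r2 (hA : AOK 3 lf A) {F : FH α} (hF : HOK 3 lf t v vd F) {S' : Mt} {Sr : V9 α}
    (hr : TV 3 lf t (hR v vd S') Sr) :
    TV 3 lf t (hR v vd S' + (2 : ℂ) • hH v vd) (r2M A F Sr) :=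
  (hr.add hA (hF.hh.add hA hF.hh)).congr (by rw [two_smul])

end

/-! ### exact runs, items -/

section
variable {lf : Mch α} {A : Alg α} {T : TK α κ γ} {KV : κ → (ℕ → ℝ) → Mt} {t : ℕ → ℝ} {v vd : V3}
  {F : FH α} {k1 k2 : κ} {S S' : Mt} {Sl Sr : V9 α} {φ : ℝ} {g : Sy} {μ : ℂ} {th h hd : ℝ}
  {P N Pd Nd : Mt} {K : LC α} {I : LI α}

/-- AN EXACT RUN -/
theorem bxK_ok (hA : AOK 3 lf A) (hT : TKL lf (nM 3 lf) KV T) (hP : PT 3 t) (h2 : brJ 1 v v = 2)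
    (h2' : (brJ 1 vd v).re = 0) (hF : HOK 3 lf t v vd F)
    (H : SPC (rfJ 1 v * sDm φ g.1 g.2) (rfd 1 0 v vd * sDm φ g.1 g.2) μ
      (-star μ ^ 2) th (-2 * th) h hd P N Pd Nd) (hμ : star μ * μ = 1)
    (hK : TLC lf t v μ th h hd P N Pd Nd K) (hl : TV 3 lf t (hL v vd S) Sl)
    (hr : TV 3 lf t (hR v vd S') Sr) {n : ℕ} {d : γ}
    (hb : bxK A T F K n k1 k2 Sl Sr d = true) :
    NT (cK v (KV k1 t)) (cK v (KV k2 t)) (nX v vd (nRM φ v g.1 g.2 (n - 1))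
      (nMd φ v vd g.1 g.2 (n - 1)) S S') (nRM φ v g.1 g.2 (n - 1)) := by
  obtain ⟨b1, b2⟩ := andB_t' hb
  have hn : 1 ≤ n := Nat.le_of_ble_eq_true b1
  have hM := TV_xt hA hP hμ hK n
  have hD := TV_xd hA hP hμ hK n
  exact gi_exact H h2 h2' (mu_ne hμ) hn (hT.t3 b2 hP hM (hD.add hA ((hM.mul hA hP hl).sub hA
    ((TV_r2 hA hF hr).mul hA hP hM))))

/-- THE INVARIANCE OF AN EXACT RUN -/
theorem bxI_ok (hA : AOK 3 lf A) {G3 : GT α} (hG : GeL 3 lf G3) (hP : PT 3 t)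
    (h2 : brJ 1 v v = 2)
    (H : SPC (rfJ 1 v * sDm φ g.1 g.2) (rfd 1 0 v vd * sDm φ g.1 g.2) μ
      (-star μ ^ 2) th (-2 * th) h hd P N Pd Nd) (hμ : star μ * μ = 1)
    (hK : TLC lf t v μ th h hd P N Pd Nd K) (hI : TLI lf t v P N I) {K1 Kt : Mt} {f f' : Fr}
    (hfr : frOK f f' = true) {Kf Kg : KM α} (hf : HK 3 lf t ((frR f)ᴴ * K1 * frR f) Kf)
    (hg : HK 3 lf t ((frR f')ᴴ * Kt * frR f') Kg) {r : ℝ} (h0 : 0 < r) {R : Mo α}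
    (hR : TOK 3 lf t (r : ℂ) R) {n : ℕ} {m : Mu}
    (hb : bxI A G3 K I n f f' m R Kf Kg = true) :
    IN (cK v K1) (cK v Kt) v (nRM φ v g.1 g.2 (n - 1)) := by
  obtain ⟨b1, b2⟩ := andB_t' hb
  have hn : 1 ≤ n := Nat.le_of_ble_eq_true b1
  refine inn_exact H h2 (mu_ne hμ) hn (fun u hu => ?_)
  have k := incV_ok hG hP hfr hA (TV_frN hA hP (TV_xi hA hP hμ hK hI n) f f') hg hf h0 hR b2 u hu
  rw [hr_cK, Matrix.mulVec_mulVec]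
  exact k

end

/-! ### the tail, forms -/

section
variable {lf : Mch α} {A : Alg α} {T : TK α κ γ} {KV : κ → (ℕ → ℝ) → Mt} {t : ℕ → ℝ} {v vd : V3}
  {F : FH α} {k1 k2 : κ} {S S' : Mt} {Sl Sr : V9 α} {φ : ℝ} {g : Sy} {μ : ℂ} {th h hd : ℝ}
  {P N Pd Nd : Mt} {K : LC α} {I : LI α}

theorem TOK_cz (hA : AOK 3 lf A) (hP : PT 3 t) (C : Cx) :
    TOK 3 lf t (cz C / UU) (cstC A C (nat_lit 0)) := by
  refine TOK_cstC hA hP ?_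
  rw [mul_div_cancel₀ _ UUc_ne, sub_self, norm_zero]
  exact Nat.cast_nonneg _

theorem q4T_ok (hN : AOKn 2 3 lf A) (hT : TKL lf (nM 3 lf) KV T) {u : ℝ} (hP : PT 4 (tu 3 t u))
    {gs : List γ} {n : ℕ}
    {M U V X : V9 (N3 α)} {Mr Ur Xr : Mt} {z : ℂ} (hM : TV 4 (nM 3 lf) (tu 3 t u) Mr M)
    (hU : TV 4 (nM 3 lf) (tu 3 t u) (z • Ur) U)
    (hV : TV 4 (nM 3 lf) (tu 3 t u) ((Complex.I * z) • Ur) V)
    (hX : TV 4 (nM 3 lf) (tu 3 t u) Xr X) (h : q4T A T k1 k2 gs n M U V X = true) :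
    T4 (KV k1 t) (KV k2 t) Xr Mr Ur z := by
  have hB := AOK_nx hN
  obtain ⟨h1, h2⟩ := andB_t' h
  obtain ⟨h3, h4⟩ := andB_t' h1
  obtain ⟨h5, h6⟩ := andB_t' h2
  obtain ⟨g0, _, k0⟩ := nth_t h3
  obtain ⟨g1, _, k1'⟩ := nth_t h4
  obtain ⟨g2, _, k2'⟩ := nth_t h5
  obtain ⟨g3, _, k3⟩ := nth_t h6
  have e1 := hT.t4 k0 hP (hM.add hB hU) hX
  have e2 := hT.t4 k1' hP (hM.add hB hV) hX
  have e3 := hT.t4 k2' hP (hM.sub hB hU) hX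
  have e4 := hT.t4 k3 hP (hM.sub hB hV) hX
  rw [hT.up, hT.up] at e1 e2 e3 e4
  exact ⟨⟨e1, e2⟩, ⟨e3, e4⟩⟩

theorem h4T_ok (hT : TKL lf (nM 3 lf) KV T) {u : ℝ} (hP : PT 4 (tu 3 t u))
    {gs : List γ} {n : ℕ} {M0 M1 M2 M3 X0 X1 X2 X3 : V9 (N3 α)} {m0 m1 m2 m3 x0 x1 x2 x3 : Mt}
    (a0 : TV 4 (nM 3 lf) (tu 3 t u) m0 M0) (a1 : TV 4 (nM 3 lf) (tu 3 t u) m1 M1)
    (a2 : TV 4 (nM 3 lf) (tu 3 t u) m2 M2) (a3 : TV 4 (nM 3 lf) (tu 3 t u) m3 M3)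
    (b0 : TV 4 (nM 3 lf) (tu 3 t u) x0 X0) (b1 : TV 4 (nM 3 lf) (tu 3 t u) x1 X1)
    (b2 : TV 4 (nM 3 lf) (tu 3 t u) x2 X2) (b3 : TV 4 (nM 3 lf) (tu 3 t u) x3 X3)
    (h : h4T T k1 k2 gs n M0 M1 M2 M3 X0 X1 X2 X3 = true) :
    (NT (KV k1 t) (KV k2 t) x0 m0 ∧ NT (KV k1 t) (KV k2 t) x1 m1) ∧
      NT (KV k1 t) (KV k2 t) x2 m2 ∧ NT (KV k1 t) (KV k2 t) x3 m3 := by
  obtain ⟨h1, h2⟩ := andB_t' h
  obtain ⟨h3, h4⟩ := andB_t' h1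
  obtain ⟨h5, h6⟩ := andB_t' h2
  obtain ⟨g0, _, k0⟩ := nth_t h3
  obtain ⟨g1, _, k1'⟩ := nth_t h4
  obtain ⟨g2, _, k2'⟩ := nth_t h5
  obtain ⟨g3, _, k3⟩ := nth_t h6
  have e1 := hT.t4 k0 hP a0 b0
  have e2 := hT.t4 k1' hP a1 b1
  have e3 := hT.t4 k2' hP a2 b2
  have e4 := hT.t4 k3 hP a3 b3
  rw [hT.up, hT.up] at e1 e2 e3 e4
  exact ⟨⟨e1, e2⟩, ⟨e3, e4⟩⟩

theorem q8T_ok (hN : AOKn 2 3 lf A) (hT : TKL lf (nM 3 lf) KV T) {u : ℝ} (hP : PT 4 (tu 3 t u))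
    {gs : List γ} {n : ℕ}
    {M U V X W0 W1 : V9 (N3 α)} {Mr Ur Xr Wr : Mt} {z : ℂ} {la : ℝ}
    (hM : TV 4 (nM 3 lf) (tu 3 t u) Mr M)
    (hU : TV 4 (nM 3 lf) (tu 3 t u) (z • Ur) U)
    (hV : TV 4 (nM 3 lf) (tu 3 t u) ((Complex.I * z) • Ur) V)
    (hX : TV 4 (nM 3 lf) (tu 3 t u) Xr X)
    (hW0 : TV 4 (nM 3 lf) (tu 3 t u) ((la * z) • Wr) W0)
    (hW1 : TV 4 (nM 3 lf) (tu 3 t u) ((la * (Complex.I * z)) • Wr) W1)
    (h : q8T A T k1 k2 gs n M U V X W0 W1 = true) :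
    T8 (KV k1 t) (KV k2 t) Xr Wr Mr Ur z la := by
  have hB := AOK_nx hN
  obtain ⟨h1, h2⟩ := andB_t' h
  have x0 := hX.add hB hW0
  have x1 := hX.add hB hW1
  have x2 := hX.sub hB hW0
  have x3 := hX.sub hB hW1
  obtain ⟨⟨c0, c1⟩, c2, c3⟩ := h4T_ok hT hP (hM.add hB hU) (hM.add hB hV) (hM.sub hB hU)
    (hM.sub hB hV) x0 x1 x2 x3 h1
  obtain ⟨⟨d0, d1⟩, d2, d3⟩ := h4T_ok hT hP hM hM hM hM x0 x1 x2 x3 h2
  exact ⟨c0, c1, c2, c3, d0, d1, d2, d3⟩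

theorem rho_ok (hA : AOK 3 lf A) (hP : PT 3 t) {b : BP} {ρ : ℂ} (h : ‖ρ‖ ≤ (b.de : ℝ) / UU) :
    TOK 3 lf t ρ (rhoM A b) := by
  refine TOK.cst hA hP _ _ ?_
  have e : ((nat_lit 0 : ℕ) : ℂ) = 0 := Nat.cast_zero
  rw [e, sub_zero, norm_mul, Complex.norm_real, Real.norm_of_nonneg UU_pos.le]
  rw [le_div_iff₀ UU_pos] at h
  linarith

section
variable {u : ℝ} {b : BP} {r : ℝ} {Rm : Mo (N3 α)}

/-- any three matrices -/
theorem TV_m (hN : AOKn 2 3 lf A) (hP : PT 4 (tu 3 t u)) {X Y : Mt} {n c : V9 α}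
    (hn : TV 3 lf t X n) (hc : TV 3 lf t Y c) (hr : TOK 4 (nM 3 lf) (tu 3 t u) ((r : ℝ) : ℂ) Rm) :
    TV 4 (nM 3 lf) (tu 3 t u) (X + (r : ℂ) • Y) (mM A n c Rm) :=
  (TV.up hN hn u).add (AOK_nx hN) (TV.smul (AOK_nx hN) hP hr (TV.up hN hc u))

theorem TV_aK (hN : AOKn 2 3 lf A) (hP3 : PT 3 t) (hK : TLC lf t v μ th h hd P N Pd Nd K)
    (k : ℕ) : TV 4 (nM 3 lf) (tu 3 t u) (aF ((k : ℝ) / UU * (h ^ 2 - 1)) (rfJ 1 v) (N * rfJ 1 v)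
      ((1 - P) * rfJ 1 v)) (aK A K k) := by
  have hA := nA hN
  have e : TOK 3 lf t (((k : ℝ) / UU * (h ^ 2 - 1) : ℝ) : ℂ)
      (mulM A (cst A k (nat_lit 0)) (g1M A K.s.h)) :=
    tc ((cst_nat hA hP3 k).mul hA hP3 (TOK_g1 hA hP3 hK.h)) (by push_cast; ring)
  exact TV.up hN (hK.N.add hA (TV.smul hA hP3 e hK.C)) u

theorem TV_aHi (hN : AOKn 2 3 lf A) (hP3 : PT 3 t) (hP : PT 4 (tu 3 t u))
    (hK : TLC lf t v μ th h hd P N Pd Nd K)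
    (hr : TOK 4 (nM 3 lf) (tu 3 t u) ((r : ℝ) : ℂ) Rm) (b : BP) :
    TV 4 (nM 3 lf) (tu 3 t u) (aF (if b.kb = 0 then r else (b.kb : ℝ) / UU * (h ^ 2 - 1))
      (rfJ 1 v) (N * rfJ 1 v) ((1 - P) * rfJ 1 v)) (aHi A K b Rm) := by
  unfold aHi
  by_cases hk : b.kb = 0
  · rw [if_pos hk, hk]
    exact TV_m hN hP hK.N hK.C hr
  · have hk' : Nat.beq b.kb (nat_lit 0) = false := by
      rw [Bool.eq_false_iff]
      intro h4
      exact hk (Nat.eq_of_beq_eq_true h4)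
    rw [if_neg hk, hk']
    exact TV_aK hN hP3 hK b.kb

theorem TV_aEx (hN : AOKn 2 3 lf A) (hP3 : PT 3 t) (hP : PT 4 (tu 3 t u))
    (hK : TLC lf t v μ th h hd P N Pd Nd K)
    (hr : TOK 4 (nM 3 lf) (tu 3 t u) ((r : ℝ) : ℂ) Rm) :
    TV 4 (nM 3 lf) (tu 3 t u) (aE r h (rfJ 1 v) (N * rfJ 1 v) ((1 - P) * rfJ 1 v))
      (aEx A K Rm) :=
  (TV.smul (AOK_nx hN) hP hr (TV.up hN hK.N u)).add (AOK_nx hN)
    (TV.up hN (TV.smul (nA hN) hP3 (TOK_g1 (nA hN) hP3 hK.h) hK.C) u)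

theorem TV_tt (hN : AOKn 2 3 lf A) (hP3 : PT 3 t) (hP : PT 4 (tu 3 t u))
    (hK : TLC lf t v μ th h hd P N Pd Nd K)
    (hr : TOK 4 (nM 3 lf) (tu 3 t u) ((r : ℝ) : ℂ) Rm) {ρ : ℂ}
    (hρ : ‖ρ‖ ≤ (b.de : ℝ) / UU) :
    TV 4 (nM 3 lf) (tu 3 t u) (tF r ρ (rfJ 1 v) (N * rfJ 1 v) ((1 - P) * rfJ 1 v))
      (ttM A K b Rm) := by
  have hA := nA hN
  refine ((TV.up hN (hK.N.add hA (TV.smul hA hP3 (rho_ok hA hP3 hρ) hK.Q)) u).add (AOK_nx hN)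
    (TV.smul (AOK_nx hN) hP hr (TV.up hN hK.C u))).congr ?_
  rw [tF]
  abel

theorem TV_bb (hN : AOKn 2 3 lf A) (hP3 : PT 3 t) (hP : PT 4 (tu 3 t u))
    (hK : TLC lf t v μ th h hd P N Pd Nd K)
    (hr : TOK 4 (nM 3 lf) (tu 3 t u) ((r : ℝ) : ℂ) Rm) {ρ : ℂ} (dh : ℝ)
    (hρ : ‖ρ‖ ≤ (b.de : ℝ) / UU) :
    TV 4 (nM 3 lf) (tu 3 t u) (bb r h hd dh ρ 0 (rfJ 1 v) ((1 - P) * rfJ 1 v)
      (Nd * rfJ 1 v) (-Pd * rfJ 1 v)) (bbM A K b Rm) := by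
  have hA := nA hN
  have hB := AOK_nx hN
  have e1 := hK.Nd.add hA (TV.smul hA hP3 (rho_ok hA hP3 hρ) hK.Qd)
  have e2 := TV.smul hA hP3 (tc (hK.h.mul hA hP3 hK.hd)
    (show (h : ℂ) * hd = ((h * hd : ℝ) : ℂ) by push_cast; ring)) hK.C
  refine (TV.smul hB hP hr ((TV.up hN e2 u).add hB (TV.smul hB hP hr ((TV.up hN e1 u).sub hB
    (TV.smul hB hP hr (TV.up hN hK.Qd u)))))).congr ?_
  unfold bb
  rw [zero_smul, add_zero]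

/-- `la` times the vertex -/
theorem laz_cz (b : BP) : ((b.la : ℝ) : ℂ) * zB b =
    cz ⟨Z.p (Nat.mul b.la b.zr), Z.p (Nat.mul b.la b.zi)⟩ / UU := by
  apply Complex.ext
  · rw [Complex.div_ofReal_re]
    show (((b.la : ℝ) : ℂ) * zB b).re = ((zv (Z.p (Nat.mul b.la b.zr)) : ℤ) : ℝ) / UU
    rw [zv_p]
    simp [zB]
    ring
  · rw [Complex.div_ofReal_im]
    show (((b.la : ℝ) : ℂ) * zB b).im = ((zv (Z.p (Nat.mul b.la b.zi)) : ℤ) : ℝ) / UU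
    rw [zv_p]
    simp [zB]
    ring

theorem Ilaz_cz (b : BP) : ((b.la : ℝ) : ℂ) * (Complex.I * zB b) =
    cz ⟨Z.m (Nat.mul b.la b.zi), Z.p (Nat.mul b.la b.zr)⟩ / UU := by
  apply Complex.ext
  · rw [Complex.div_ofReal_re]
    show (((b.la : ℝ) : ℂ) * (Complex.I * zB b)).re =
      ((zv (Z.m (Nat.mul b.la b.zi)) : ℤ) : ℝ) / UU
    have : zv (Z.m (Nat.mul b.la b.zi)) = -((Nat.mul b.la b.zi : ℕ) : ℤ) := rfl
    rw [this]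
    simp [zB]
    ring
  · rw [Complex.div_ofReal_im]
    show (((b.la : ℝ) : ℂ) * (Complex.I * zB b)).im =
      ((zv (Z.p (Nat.mul b.la b.zr)) : ℤ) : ℝ) / UU
    rw [zv_p]
    simp [zB]
    ring

theorem TV_w (hN : AOKn 2 3 lf A) (hP3 : PT 3 t) (hP : PT 4 (tu 3 t u))
    (hK : TLC lf t v μ th h hd P N Pd Nd K) {c : ℂ} {C : Cx} (hc : c = cz C / UU) {s : ℝ}
    {Sm : Mo (N3 α)} (hs : TOK 4 (nM 3 lf) (tu 3 t u) ((s : ℝ) : ℂ) Sm) {dh : ℝ}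
    (hdh : dh = -2 * th - th) :
    TV 4 (nM 3 lf) (tu 3 t u) (c • ((Complex.I * ((s * dh : ℝ) : ℂ)) •
      ((1 - P) * rfJ 1 v))) (smV (nx A) Sm (upV (smV A (cstC A C (nat_lit 0))
        (smV A (m3M A K.s.it) K.Q)))) := by
  have hA := nA hN
  have hB := AOK_nx hN
  have h3 : TOK 3 lf t (Complex.I * (dh : ℂ)) (m3M A K.s.it) :=
    tc (TOK_neg hA hP3 (hK.it.add hA (TOK_db hA hK.it))) (by rw [hdh]; push_cast; ring)
  refine (TV.smul hB hP hs (TV.up hN (TV.smul hA hP3 (tc (TOK_cz hA hP3 C) hc.symm)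
    (TV.smul hA hP3 h3 hK.Q)) u)).congr ?_
  rw [smul_smul, smul_smul, smul_smul]
  congr 1
  push_cast
  ring

theorem TOK_h4 (hN : AOKn 2 3 lf A) (hP3 : PT 3 t) (hK : TLC lf t v μ th h hd P N Pd Nd K) :
    TOK 4 (nM 3 lf) (tu 3 t u) ((hd / 4 : ℝ) : ℂ) (h4M A K) :=
  TOK.up hN (tc (TOK_hf (nA hN) hP3 (TOK_hf (nA hN) hP3 hK.hd)) (by push_cast; ring)) u

theorem TV_z0 (hN : AOKn 2 3 lf A) (hP3 : PT 3 t) {Y : Mt} {q : V9 α} (hq : TV 3 lf t Y q)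
    (b : BP) : TV 4 (nM 3 lf) (tu 3 t u) (zB b • Y) (z0M A q b) :=
  TV.up hN (TV.smul (nA hN) hP3 (tc (TOK_cz (nA hN) hP3 _) (zB_cz b).symm) hq) u
theorem TV_z1 (hN : AOKn 2 3 lf A) (hP3 : PT 3 t) {Y : Mt} {q : V9 α} (hq : TV 3 lf t Y q)
    (b : BP) : TV 4 (nM 3 lf) (tu 3 t u) ((Complex.I * zB b) • Y) (z1M A q b) :=
  TV.up hN (TV.smul (nA hN) hP3 (tc (TOK_cz (nA hN) hP3 _) (IzB_cz b).symm) hq) u

end

/-- the condition of a piece for the length `n`, with the bound of `n / chS h n` -/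
def bcT (h : ℝ) (bp : List BP) (i n : ℕ) : Prop := ∃ b : BP, bp[i]? = some b ∧
  (b.t0 : ℝ) / UU ≤ chR h n ∧ chR h n ≤ (b.t1 : ℝ) / UU ∧ 1 / chS h n ≤ (b.de : ℝ) / UU ∧
    (n : ℝ) / chS h n ≤ (b.et : ℝ) / UU ∧ 2 ≤ n ∧ b.la ≤ n

/-- the vertex for `n ρ` -/
theorem la_z {b : BP} (h : laB b = true) {η : ℂ} (hη : ‖η‖ ≤ (b.et : ℝ) / UU) :
    0 < (b.la : ℝ) ∧ 2 * ‖η‖ ^ 2 ≤ ‖((b.la : ℝ) : ℂ) * zB b‖ ^ 2 := by
  obtain ⟨h1, h2⟩ := andB_t' h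
  have k1 : 1 ≤ b.la := Nat.le_of_ble_eq_true h1
  have k2 := Nat.le_of_ble_eq_true h2
  have k3 : 2 * ((b.et : ℝ) * b.et) ≤ ((b.la : ℝ) * b.la) * ((b.zr : ℝ) * b.zr +
      (b.zi : ℝ) * b.zi) := by exact_mod_cast k2
  refine ⟨by exact_mod_cast k1, ?_⟩
  have h3 : ‖η‖ ^ 2 ≤ ((b.et : ℝ) / UU) ^ 2 := pow_le_pow_left₀ (norm_nonneg _) hη 2
  rw [norm_mul, mul_pow, z_sq, Complex.norm_real, Real.norm_of_nonneg (Nat.cast_nonneg _)]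
  have hU : 0 < UU ^ 2 := pow_pos UU_pos 2
  have e1 : (b.la : ℝ) ^ 2 * ((b.zr : ℝ) / UU * ((b.zr : ℝ) / UU) +
      (b.zi : ℝ) / UU * ((b.zi : ℝ) / UU)) =
      ((b.la : ℝ) * b.la) * ((b.zr : ℝ) * b.zr + (b.zi : ℝ) * b.zi) / UU ^ 2 := by ring
  have e2 : 2 * ((b.et : ℝ) / UU) ^ 2 = 2 * ((b.et : ℝ) * b.et) / UU ^ 2 := by ring
  rw [e1]
  calc 2 * ‖η‖ ^ 2 ≤ 2 * ((b.et : ℝ) / UU) ^ 2 := by linarith
    _ ≤ _ := by rw [e2]; exact div_le_div_of_nonneg_right k3 hU.le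

/-- A PIECE OF THE TAIL -/
theorem btK_ok (hN : AOKn 2 3 lf A) (hT : TKL lf (nM 3 lf) KV T) (hP : PT 3 t)
    (h2 : brJ 1 v v = 2) (h2' : (brJ 1 vd v).re = 0)
    (hF : HOK 3 lf t v vd F) (H : SPC (rfJ 1 v * sDm φ g.1 g.2) (rfd 1 0 v vd * sDm φ g.1 g.2) μ
      (-star μ ^ 2) th (-2 * th) h hd P N Pd Nd) (hμ : star μ * μ = 1) (hh : 1 ≤ h)
    (hd0 : 0 ≤ hd) (hK : TLC lf t v μ th h hd P N Pd Nd K) (hl : TV 3 lf t (hL v vd S) Sl)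
    (hr : TV 3 lf t (hR v vd S') Sr) {bp : List BP} {i : ℕ} {gs : List γ}
    (hb : btK A T F K bp i k1 k2 Sl Sr gs = true) {n : ℕ} (hn : bcT h bp i n) :
    NT (cK v (KV k1 t)) (cK v (KV k2 t)) (nX v vd (nRM φ v g.1 g.2 (n - 1))
      (nMd φ v vd g.1 g.2 (n - 1)) S S') (nRM φ v g.1 g.2 (n - 1)) := by
  have hA3 := nA hN
  have a4 := AOK_nx hN
  obtain ⟨b, hbi, hb1⟩ := nth_t hb
  obtain ⟨b', hbi', c0, c1, c2, c3, hn2, c4⟩ := hn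
  have eb : b' = b := by rw [hbi] at hbi'; exact (Option.some.inj hbi').symm
  subst eb
  obtain ⟨p0, p2⟩ := andB_t' hb1
  obtain ⟨pl, p1⟩ := andB_t' p0
  have hn1 : 1 ≤ n := by omega
  have hr0 := chR_pos hh hn1
  have hU : UU = 2 ^ 48 := by unfold UU; norm_num
  obtain ⟨u, h0, h1, hP4, hrm⟩ := cr_ex (τ := chR h n) (a := b'.t0) (b := b'.t1) hN hP
    (by norm_num) (by rw [← hU]; exact c0) (by rw [← hU]; exact c1)
  have hR : TOK 4 (nM 3 lf) (tu 3 t u) ((chR h n : ℝ) : ℂ) (rrM A b') := hrm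
  have nq := chQ_norm (mu_norm hμ) (nu_norm hμ) hh hn1
  have hρ : ‖chQ μ (-star μ ^ 2) h n‖ ≤ (b'.de : ℝ) / UU := by rw [nq]; exact c2
  have hη : ‖(n : ℂ) * chQ μ (-star μ ^ 2) h n‖ ≤ (b'.et : ℝ) / UU := by
    rw [norm_mul, nq, Complex.norm_natCast, mul_one_div]
    exact c3
  have hz := pc_z p1 hρ
  obtain ⟨hla, hz8⟩ := la_z pl hη
  have hls : (b'.la : ℝ) ≤ n := by exact_mod_cast c4
  have hM := TV_m hN hP4 hK.N hK.C hR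
  have hz0 := TV_z0 (u := u) hN hP hK.Q b'
  have hz1 := TV_z1 (u := u) hN hP hK.Q b'
  have h4 := TOK_h4 (u := u) hN hP hK
  have hbb := TV_bb hN hP hP4 hK hR (-2 * th - th) hρ
  have htt := TV_tt hN hP hP4 hK hR hρ
  have hL4 := TV.up hN hl u
  have hR4 := TV.up hN (TV_r2 hA3 hF hr) u
  have hr2 := hR.mul a4 hP4 hR
  have hom := chO_mul hh hn1
  have hole := chO_le hh hn1
  have hG : 0 ≤ h ^ 2 - 1 := by nlinarith
  have p2' : bt1 A T F K k1 k2 Sl Sr gs b' (rrM A b') (mulM (nx A) (rrM A b') (rrM A b'))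
    (mM A K.N K.C (rrM A b')) (z0M A K.Q b') (z1M A K.Q b') (ttM A K b' (rrM A b'))
    (bbM A K b' (rrM A b')) = true := p2
  unfold bt1 at p2'
  cases hex : b'.ex with
  | true =>
    rw [hex] at p2'
    obtain ⟨q1, q2⟩ := andB_t' (show btE _ _ _ _ _ _ _ _ _ _ _ _ _ = true from p2')
    have hA := TV_aEx hN hP hP4 hK hR
    have A1 := q4T_ok hN hT hP4 hM hz0 hz1 hA q1
    have hr3 : TOK 4 (nM 3 lf) (tu 3 t u) ((chR h n ^ 3 : ℝ) : ℂ)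
        (mulM (nx A) (rrM A b') (mulM (nx A) (rrM A b') (rrM A b'))) :=
      tc (hR.mul a4 hP4 hr2) (by push_cast; ring)
    have B1 := q8T_ok (Wr := (Complex.I * ((chR h n ^ 3 * (-2 * th - th) : ℝ) : ℂ)) •
        ((1 - P) * rfJ 1 v)) hN hT hP4 hM hz0 hz1 (((TV.smul a4 hP4 h4 hA).add a4
      (TV.smul a4 hP4 hR hbb)).add a4 (((TV.smul a4 hP4 (hR.mul a4 hP4 hr2) htt).mul a4 hP4
        hL4).sub a4 (hR4.mul a4 hP4 (TV.smul a4 hP4 (hR.mul a4 hP4 hr2) htt))))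
        (TV_w hN hP hP4 hK (laz_cz b') hr3 rfl) (TV_w hN hP hP4 hK (Ilaz_cz b') hr3 rfl) q2
    refine gi_tailE8 H h2 h2' (mu_ne hμ) hh hd0 hn2 hz hla hls hz8 rfl rfl rfl rfl rfl A1 ?_
    have e : ∀ X Y W : Mt, X = Y → T8 (KV k1 t) (KV k2 t) X W (N * rfJ 1 v + (chR h n : ℂ) •
        (rfJ 1 v - (1 - P) * rfJ 1 v)) ((1 - P) * rfJ 1 v) (zB b') b'.la →
        T8 (KV k1 t) (KV k2 t) Y W
        (N * rfJ 1 v + (chR h n : ℂ) • (rfJ 1 v - (1 - P) * rfJ 1 v)) ((1 - P) * rfJ 1 v)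
        (zB b') b'.la := fun X Y W e h => e ▸ h
    refine e _ _ _ ?_ B1
    rw [bF, gg]
    simp only [smul_add, smul_sub, smul_smul, smul_mul_assoc, mul_smul_comm]
    push_cast
    module
  | false =>
    rw [hex] at p2'
    obtain ⟨q1, q2⟩ := andB_t' (show btF _ _ _ _ _ _ _ _ _ _ _ _ _ _ _ = true from p2')
    obtain ⟨q3, q4⟩ := andB_t' q1
    obtain ⟨q5, q6⟩ := andB_t' q2
    obtain ⟨o1, o2⟩ := pc_a p1 hex hr0 c0 c1 hG hom hole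
    have hA := TV_aK (u := u) hN hP hK b'.ka
    have hA2 := TV_aHi hN hP hP4 hK hR b'
    have hg := ((TV.smul a4 hP4 hr2 htt).mul a4 hP4 hL4).sub a4
      (hR4.mul a4 hP4 (TV.smul a4 hP4 hr2 htt))
    have A1 := q4T_ok hN hT hP4 hM hz0 hz1 hA q3
    have A2 := q4T_ok hN hT hP4 hM hz0 hz1 hA2 q4
    have e2 : ((chR h n ^ 2 : ℝ) : ℂ) = (chR h n : ℂ) * (chR h n : ℂ) := by push_cast; ring
    have hr2' : TOK 4 (nM 3 lf) (tu 3 t u) ((chR h n ^ 2 : ℝ) : ℂ)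
        (mulM (nx A) (rrM A b') (rrM A b')) := tc hr2 e2.symm
    have w0 := TV_w hN hP hP4 hK (laz_cz b') hr2' rfl
    have w1 := TV_w hN hP hP4 hK (Ilaz_cz b') hr2' rfl
    have B1 := q8T_ok hN hT hP4 hM hz0 hz1 (((TV.smul a4 hP4 h4 hA).add a4 hbb).add a4 hg) w0 w1
      q5
    have B2 := q8T_ok hN hT hP4 hM hz0 hz1 (((TV.smul a4 hP4 h4 hA2).add a4 hbb).add a4 hg) w0 w1
      q6
    refine gi_tail8 H h2 h2' (mu_ne hμ) hh hd0 hn2 o1 o2 hz hla hls hz8 rfl rfl rfl rfl rfl A1 A2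
      ?_ ?_
    · rw [bF, gg, e2, ← add_assoc]
      exact B1
    · rw [bF, gg, e2, ← add_assoc]
      exact B2

end

/-! ### the inclusion of the tail -/

section
variable {D : ℕ} {lf : Mch α} {A : Alg α} {t : ℕ → ℝ}

theorem HK_ad (hA : AOK D lf A) {L1 L2 : Mt} {X Y : KM α} (h1 : HK D lf t L1 X)
    (h2 : HK D lf t L2 Y) : HK D lf t (L1 + L2) (adK A X Y) := by
  refine ⟨h1.a.add hA h2.a, h1.b.add hA h2.b, h1.c.add hA h2.c, h1.x.add hA h2.x,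
    h1.y.add hA h2.y, h1.w.add hA h2.w, fun i j => ?_⟩
  rw [Matrix.add_apply, Matrix.add_apply, star_add, h1.hm i j, h2.hm i j]

/-- **THE FRAMED TEST WITH AN ADDITIONAL FORM** -/
theorem incW_ok {G : GT α} (hG : GeL D lf G) (hP : PT D t)
    {Kt K1 N U : Mt} {f g : Fr} (hfr : frOK f g = true)
    (hA : AOK D lf A) {V : V9 α} {Kg Kf W : KM α} {e : ℝ}
    (hV : TV D lf t (frS g * (N * frR f)) V)
    (hW : HK D lf t ((e : ℂ) • ((frS g * (U * frR f))ᴴ * ((frR g)ᴴ * Kt * frR g) *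
      (frS g * (U * frR f)))) W)
    (hg : HK D lf t ((frR g)ᴴ * Kt * frR g) Kg) (hf : HK D lf t ((frR f)ᴴ * K1 * frR f) Kf)
    {r : ℝ} (h0 : 0 < r) {R : Mo α} (hR : TOK D lf t (r : ℂ) R)
    {m : Mu} (h : incW A G f m R V W Kg Kf = true) (u : V3) (hu : u ∈ NZ K1) :
    0 ≤ hr (vF Kt N U e) u := by
  obtain ⟨b1, hfr⟩ := andB_t' hfr
  obtain ⟨b2, hfr⟩ := andB_t' hfr
  obtain ⟨b3, hfr⟩ := andB_t' hfr
  obtain ⟨b4, b5⟩ := andB_t' hfr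
  have df := nzC_ok b1
  have dg := nzC_ok b2
  have sf : (f.s : ℂ) ≠ 0 := by
    have : 1 ≤ f.s := Nat.le_of_ble_eq_true b3
    exact_mod_cast (by omega : f.s ≠ 0)
  have sg : (g.s : ℂ) ≠ 0 := by
    have : 1 ≤ g.s := Nat.le_of_ble_eq_true b4
    exact_mod_cast (by omega : g.s ≠ 0)
  have zg : (g.z : ℂ) ≠ 0 := by
    have : 1 ≤ g.z := Nat.le_of_ble_eq_true b5
    exact_mod_cast (by omega : g.z ≠ 0)
  have hF := (HK_ad hA (hg.g9 hA hP hV) hW).sm hA hP hR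
  set ζ : V3 := ((UU : ℂ) / ((f.s : ℂ) * cz (dtC f.c))) • (C9M (adC f.c)).mulVec u with hζ
  have eu : (frR f).mulVec ζ = u := by
    rw [hζ, Matrix.mulVec_smul, frR, Matrix.smul_mulVec, Matrix.mulVec_mulVec, C9M_ad,
      Matrix.smul_mulVec, Matrix.one_mulVec, smul_smul, smul_smul]
    have e : (UU : ℂ) / ((f.s : ℂ) * cz (dtC f.c)) * ((f.s : ℂ) / UU) * cz (dtC f.c) = 1 := by
      have := UUc_ne
      field_simp
    rw [e, one_smul]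
  have h3 := hG hP hF hf h ζ
  rw [jFC_hq, hr_smulM, hr_addK, hr_smulK, hr_cong, hr_cong, hr_cong, hr_cong, hr_cong,
    eu] at h3
  have eJ : hr J1 ((C9M f.c).mulVec ζ) = 0 := by
    have e1 : (C9M f.c).mulVec ζ = ((UU : ℂ) / f.s) • u := by
      have e2 : (frR f).mulVec ζ = ((f.s : ℂ) / UU) • (C9M f.c).mulVec ζ := by
        rw [frR, Matrix.smul_mulVec]
      rw [eu] at e2
      rw [e2, smul_smul]
      have e3 : (UU : ℂ) / f.s * ((f.s : ℂ) / UU) = 1 := by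
        have := UUc_ne
        field_simp
      rw [e3, one_smul]
    rw [e1, hr_smulv, hu.2, mul_zero]
  have e4 : ∀ X : Mt, (frR g).mulVec ((frS g * (X * frR f)).mulVec ζ) =
      ((g.s : ℂ) / UU * ((g.z : ℂ) / UU) * cz (dtC g.c)) • X.mulVec u := by
    intro X
    rw [← Matrix.mulVec_mulVec, ← Matrix.mulVec_mulVec, eu, frR, frS, Matrix.smul_mulVec,
      Matrix.smul_mulVec, Matrix.mulVec_smul, Matrix.mulVec_mulVec, C9M_ad, Matrix.smul_mulVec,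
      Matrix.one_mulVec, smul_smul, smul_smul]
  rw [e4, e4, hr_smulv, hr_smulv, eJ, mul_zero, mul_zero] at h3
  have h00 : ((nat_lit 0 : ℕ) : ℝ) = 0 := Nat.cast_zero
  rw [h00, zero_div, zero_mul] at h3
  have h5 := mul_nonneg (Nat.cast_nonneg (α := ℝ) m.l) hu.1
  have hp : 0 < ‖(g.s : ℂ) / UU * ((g.z : ℂ) / UU) * cz (dtC g.c)‖ ^ 2 := by
    have h6 : (g.s : ℂ) / UU * ((g.z : ℂ) / UU) * cz (dtC g.c) ≠ 0 :=
      mul_ne_zero (mul_ne_zero (div_ne_zero sg UUc_ne) (div_ne_zero zg UUc_ne)) dg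
    have := norm_pos_iff.2 h6
    positivity
  rw [hr_vF]
  have h7 : 0 ≤ r * (‖(g.s : ℂ) / UU * ((g.z : ℂ) / UU) * cz (dtC g.c)‖ ^ 2 *
      (hr Kt (N.mulVec u) + e * hr Kt (U.mulVec u))) := by
    nlinarith
  exact nonneg_of_mul_nonneg_right (nonneg_of_mul_nonneg_right h7 h0) hp

end

section
variable {lf : Mch α} {A : Alg α} {t : ℕ → ℝ} {v vd : V3}
  {φ : ℝ} {g : Sy} {μ : ℂ} {th h hd : ℝ}
  {P N Pd Nd : Mt} {K : LC α} {I : LI α}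

/-- THE INVARIANCE OF A PIECE OF THE TAIL -/
theorem btI_ok (hN : AOKn 2 3 lf A) {G4 : GT (N3 α)} (hG : GeL 4 (nM 3 lf) G4) (hP : PT 3 t)
    (h2 : brJ 1 v v = 2)
    (H : SPC (rfJ 1 v * sDm φ g.1 g.2) (rfd 1 0 v vd * sDm φ g.1 g.2) μ
      (-star μ ^ 2) th (-2 * th) h hd P N Pd Nd) (hμ : star μ * μ = 1) (hh : 1 ≤ h)
    (hK : TLC lf t v μ th h hd P N Pd Nd K) (hI : TLI lf t v P N I) {K1 Kt : Mt} {f f' : Fr}
    (hfr : frOK f f' = true) {Kf Kg : KM α} (hf : HK 3 lf t ((frR f)ᴴ * K1 * frR f) Kf)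
    (hg : HK 3 lf t ((frR f')ᴴ * Kt * frR f') Kg) {r : ℝ} (hr0 : 0 < r) {R : Mo α}
    (hR0 : TOK 3 lf t (r : ℂ) R) {bp : List BP} {i : ℕ} {m : Mu}
    (hb : btI A G4 K I bp i f f' m R Kf Kg = true) {n : ℕ} (hn : bcT h bp i n) :
    IN (cK v K1) (cK v Kt) v (nRM φ v g.1 g.2 (n - 1)) := by
  have hA := nA hN
  have a4 := AOK_nx hN
  obtain ⟨b, hbi, hb1⟩ := nth_t hb
  obtain ⟨b', hbi', c0, c1, c2, c3, hn2, _⟩ := hn
  have eb : b' = b := by rw [hbi] at hbi'; exact (Option.some.inj hbi').symm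
  subst eb
  obtain ⟨p1, p2⟩ := andB_t' hb1
  obtain ⟨p3, p4⟩ := andB_t' p2
  obtain ⟨q0, q1⟩ := andB_t' p3
  obtain ⟨q2, q3⟩ := andB_t' p4
  have hn1 : 1 ≤ n := by omega
  have hU : UU = 2 ^ 48 := by unfold UU; norm_num
  obtain ⟨u, h0, h1, hP4, hrm⟩ := cr_ex (τ := chR h n) (a := b'.t0) (b := b'.t1) hN hP
    (by norm_num) (by rw [← hU]; exact c0) (by rw [← hU]; exact c1)
  have hR : TOK 4 (nM 3 lf) (tu 3 t u) ((chR h n : ℝ) : ℂ) (rrM A b') := hrm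
  have nq := chQ_norm (mu_norm hμ) (nu_norm hμ) hh hn1
  have hρ : ‖chQ μ (-star μ ^ 2) h n‖ ≤ (b'.de : ℝ) / UU := by rw [nq]; exact c2
  have hz := pc_z p1 hρ
  have fn := TV_frN hA hP hI.n f f'
  have fq := TV_frN hA hP hI.q f f'
  have fe := TV_frN hA hP hI.e f f'
  have hM := TV_m hN hP4 fn fe hR
  have hz0 := TV_z0 (u := u) hN hP fq b'
  have hz1 := TV_z1 (u := u) hN hP fq b'
  have k4 := Pool.Agent.Helper91.TMK.ITF.kU hN hf u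
  have c4 := Pool.Agent.Helper91.TMK.ITF.kU hN hg u
  have R4 := TOK.up hN hR0 u
  have he : TOK 4 (nM 3 lf) (tu 3 t u) ((chR h n ^ 2 - (h ^ 2 - 1) - ‖zB b'‖ ^ 2 : ℝ) : ℂ)
      (e1M A K b' (rrM A b')) := by
    refine tc ((hR.mul a4 hP4 hR).sub a4 (TOK.up hN ((TOK_g1 hA hP hK.h).add hA
      (((cst_nat hA hP b'.zr).mul hA hP (cst_nat hA hP b'.zr)).add hA
        ((cst_nat hA hP b'.zi).mul hA hP (cst_nat hA hP b'.zi)))) u)) ?_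
    rw [z_sq]
    push_cast
    ring
  have hW := (Pool.Agent.Helper91.TMK.ITF.kU hN (hg.g9 hA hP fq) u).sm a4 hP4 he
  refine inn_at H h2 (mu_ne hμ) hh hn1 (fun w hw => ?_)
  have h4 : ‖chQ μ (-star μ ^ 2) h n‖ ^ 2 = chR h n ^ 2 - (h ^ 2 - 1) := by
    rw [nq, chR_sq hh hn1, div_pow, one_pow]
    ring
  have ex : rfJ 1 v * (rT (chR h n) (chQ μ (-star μ ^ 2) h n) P N * rfJ 1 v) =
      (rfJ 1 v * (N * rfJ 1 v) + (chR h n : ℂ) •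
        (rfJ 1 v * (rfJ 1 v - (1 - P) * rfJ 1 v))) +
        chQ μ (-star μ ^ 2) h n • (rfJ 1 v * ((1 - P) * rfJ 1 v)) := by
    rw [rT_c, tF, mul_add, mul_add, mul_smul_comm, mul_smul_comm]
  rw [hr_cK, Matrix.mulVec_mulVec, ex]
  have hG' := fun (X : Mt) (V : V9 (N3 α)) (hV : TV 4 (nM 3 lf) (tu 3 t u)
      (frS f' * (X * frR f)) V) (hq : incW (nx A) G4 f m (upM R) V
        (smK (nx A) (e1M A K b' (rrM A b')) (upK (cg9 A (frN A f f' I.q) Kg))) (upK Kg)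
        (upK Kf) = true) => incW_ok hG hP4 hfr a4 hV hW c4 k4 hr0 R4 hq w hw
  have ef : ∀ X : Mt, ∀ c : ℂ, frS f' * ((rfJ 1 v * (N * rfJ 1 v) + (chR h n : ℂ) •
        (rfJ 1 v * (rfJ 1 v - (1 - P) * rfJ 1 v)) + c • X) * frR f) =
      frS f' * (rfJ 1 v * (N * rfJ 1 v) * frR f) + (chR h n : ℂ) •
        (frS f' * (rfJ 1 v * (rfJ 1 v - (1 - P) * rfJ 1 v) * frR f)) +
        c • (frS f' * (X * frR f)) := by
    intro X c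
    rw [add_mul, add_mul, mul_add, mul_add, smul_mul_assoc, smul_mul_assoc, mul_smul_comm,
      mul_smul_comm]
  have eg : ∀ X : Mt, ∀ c : ℂ, frS f' * ((rfJ 1 v * (N * rfJ 1 v) + (chR h n : ℂ) •
        (rfJ 1 v * (rfJ 1 v - (1 - P) * rfJ 1 v)) - c • X) * frR f) =
      frS f' * (rfJ 1 v * (N * rfJ 1 v) * frR f) + (chR h n : ℂ) •
        (frS f' * (rfJ 1 v * (rfJ 1 v - (1 - P) * rfJ 1 v) * frR f)) -
        c • (frS f' * (X * frR f)) := by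
    intro X c
    rw [sub_mul, add_mul, mul_sub, mul_add, smul_mul_assoc, smul_mul_assoc, mul_smul_comm,
      mul_smul_comm]
  exact hr_circ hz (by rw [h4])
    (hG' _ _ ((hM.add a4 hz0).congr (ef _ _).symm) q0)
    (hG' _ _ ((hM.add a4 hz1).congr (ef _ _).symm) q1)
    (hG' _ _ ((hM.sub a4 hz0).congr (eg _ _).symm) q2)
    (hG' _ _ ((hM.sub a4 hz1).congr (eg _ _).symm) q3)

end

end Pool.Agent.Helper91.TMK.NBW
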